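import Pool.Agent.TH997.SK.ZF
import Pool.Agent.H612.LR.MainP

set_option autoImplicit false

/-!
# Formulas of the existential theory of the reals for small zeros
-/

namespace Pool.Agent.Y556.SK

open Pool.Agent.NPC Pool.Agent.NPC.ER Pool.Agent.NPC.H612 Pool.Agent.H612.PG Pool.Agent.H612.LR
open Pool.Agent.TH997.SK

theorem upoly_Nb (A : ℕ) : UPoly (fun l : Rec => (1 + Pool.Agent.H612.LR.sz l) ^ A) := by
  have h := UPoly.eval (Pool.Agent.NPC.H612.LRP.upoly_sz Pool.Agent.NPC.Poly.id)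
    ((Polynomial.C 1 + Polynomial.X) ^ A)
  simpa only [Polynomial.eval_add, Polynomial.eval_C, Polynomial.eval_pow, Polynomial.eval_X]
    using h

/-- a zero with index less than `2 ^ ((1 + s) ^ A)` -/
theorem etr_typed (A : ℕ) : ∃ g : Rec → Fm, Pool.Agent.NPC.Poly g ∧ ∀ l : Rec, l ≠ [] →
    (ETR (g l) ↔ ∃ n, n < max (2 ^ ((1 + Pool.Agent.H612.LR.sz l) ^ A)) l.length ∧
      seq l n = 0) := by
  refine ⟨fun l => disj [zmFm l ((1 + Pool.Agent.H612.LR.sz l) ^ A), zsFm l], ?_,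
    fun l hl => ?_⟩
  · exact poly_disj (Pool.Agent.NPC.Poly.cons (zp.1 _ (upoly_Nb A))
      (Pool.Agent.NPC.Poly.cons zp.2 (Pool.Agent.NPC.Poly.const [])))
  · have hk : 1 ≤ l.length := List.length_pos_iff.2 hl
    have hT := zm l ((1 + Pool.Agent.H612.LR.sz l) ^ A) hk
    have hS := zs l
    rw [etr_disj]
    simp only [List.mem_cons, List.not_mem_nil, or_false, exists_eq_or_imp, exists_eq_left]
    rw [hT, hS]
    constructor
    · rintro (⟨n, h1, h2, h3⟩ | ⟨n, h1, h2⟩)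
      · exact ⟨n, lt_of_lt_of_le h2 (le_max_left _ _), h3⟩
      · exact ⟨n, lt_of_lt_of_le h1 (le_max_right _ _), h2⟩
    · rintro ⟨n, h1, h2⟩
      by_cases h3 : n < l.length
      · exact Or.inr ⟨n, h3, h2⟩
      · rw [not_lt] at h3
        refine Or.inl ⟨n, h3, ?_, h2⟩
        rcases lt_max_iff.1 h1 with h | h
        · exact h
        · omega

/-- on strings -/
theorem etr_str (A : ℕ) : ∃ f : List Bool → Fm, PolyTime (fun w => bits (f w)) ∧
    ∀ l : Rec, l ≠ [] → (ETR (f (bits l)) ↔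
      ∃ n, n < max (2 ^ ((1 + Pool.Agent.H612.LR.sz l) ^ A)) l.length ∧ seq l n = 0) := by
  obtain ⟨g, hg, h⟩ := etr_typed A
  obtain ⟨f, hf, h'⟩ := toStr hg
  refine ⟨f, hf, fun l hl => ?_⟩
  rw [h']
  exact h l hl

end Pool.Agent.Y556.SK
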