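import Pool.Agent.Y556.SK.Run
import Pool.Agent.Y556.SK.Etr

set_option autoImplicit false

/-!
# Zeros with polynomially bounded index are found in polynomial time
-/

namespace Pool.Agent.Y556.SK

open Pool.Agent.NPC Pool.Agent.NPC.H612 Pool.Agent.H612.LR
open Pool.Agent.NPC.H612.LRP

section

variable {α : Type} [TEnc α]

theorem dn_le (l : Rec) : dn l ≤ 2 ^ Pool.Agent.H612.LR.sz l := by
  have h1 := dn_qn_le l
  have h2 := qn_one_le l
  have h3 : (dn l : ℚ) * 1 ≤ dn l * qn l := mul_le_mul_of_nonneg_left h2 (Nat.cast_nonneg _)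
  have h4 : (dn l : ℚ) ≤ ((2 ^ Pool.Agent.H612.LR.sz l : ℕ) : ℚ) := by
    push_cast
    linarith
  exact_mod_cast h4

theorem dn_drop_le (l : Rec) (k : ℕ) : dn (l.drop k) ≤ dn l := by
  induction l generalizing k with
  | nil => simp
  | cons p l ih =>
    rcases k with _ | k
    · simp
    · rw [List.drop_succ_cons, dn_cons]
      refine (ih k).trans ?_
      exact Nat.le_mul_of_pos_left _ (Nat.mul_pos p.1.den_pos p.2.den_pos)

set_option maxHeartbeats 400000 in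
theorem poly_dn : Pool.Agent.NPC.Poly (fun l : Rec => dn l) := by
  obtain ⟨r, hr⟩ := (upoly_sz (α := Rec) Pool.Agent.NPC.Poly.id).sz_le
  refine Pool.Agent.NPC.Poly.foldr (l := fun l : Rec => l) (s := fun _ => 1)
    (F := fun _ p s => p.1.den * p.2.den * s) Pool.Agent.NPC.Poly.id (Pool.Agent.NPC.Poly.const 1)
    ?_ (Polynomial.C 4 * r + Polynomial.C 5) ?_
  · exact Pool.Agent.NPC.Poly.mul (Pool.Agent.NPC.Poly.mul
      (ER.poly_ratDen (Pool.Agent.NPC.Poly.fst (Pool.Agent.NPC.Poly.fst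
        (Pool.Agent.NPC.Poly.snd Pool.Agent.NPC.Poly.id))))
      (ER.poly_ratDen (Pool.Agent.NPC.Poly.snd (Pool.Agent.NPC.Poly.fst
        (Pool.Agent.NPC.Poly.snd Pool.Agent.NPC.Poly.id)))))
      (Pool.Agent.NPC.Poly.snd (Pool.Agent.NPC.Poly.snd Pool.Agent.NPC.Poly.id))
  · intro l k _
    change Pool.Agent.NPC.sz (dn (l.drop k)) ≤ _
    have h1 := sz_nat_le (dn (l.drop k))
    have h2 : dn (l.drop k) < 2 ^ (Pool.Agent.H612.LR.sz l + 1) := by
      refine ((dn_drop_le l k).trans (dn_le l)).trans_lt ?_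
      exact Nat.pow_lt_pow_right (by norm_num) (Nat.lt_succ_self _)
    have h3 := Nat.size_le.2 h2
    have h4 : Pool.Agent.NPC.sz (List.replicate (Pool.Agent.H612.LR.sz l) ()) ≤
      r.eval (Pool.Agent.NPC.sz l) := hr l
    have h5 := length_lt_sz (List.replicate (Pool.Agent.H612.LR.sz l) ())
    rw [List.length_replicate] at h5
    simp only [Polynomial.eval_add, Polynomial.eval_mul, Polynomial.eval_C]
    omega

theorem poly_two_pow {n : α → ℕ} (hn : UPoly n) : Pool.Agent.NPC.Poly (fun a => 2 ^ n a) := by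
  have h1 : Pool.Agent.NPC.Poly (fun a => (List.range (n a)).map (fun _ => false) ++ [true]) :=
    Pool.Agent.NPC.Poly.append (Pool.Agent.NPC.Poly.map hn.range (F := fun _ _ => false)
      (Pool.Agent.NPC.Poly.const false)) (Pool.Agent.NPC.Poly.const [true])
  refine (Pool.Agent.NPC.Poly.valBits h1).congr fun a => ?_
  have h2 : (List.range (n a)).map (fun _ => false) = List.replicate (n a) false := by
    rw [List.eq_replicate_iff]
    refine ⟨by simp, fun b hb => ?_⟩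
    rw [List.mem_map] at hb
    obtain ⟨_, _, rfl⟩ := hb
    rfl
  rw [h2, valB_replicate_false]
  simp

theorem poly_rs {M : α → ℕ} {x : α → ℤ} (hM : Pool.Agent.NPC.Poly M)
    (hx : Pool.Agent.NPC.Poly x) : Pool.Agent.NPC.Poly (fun a => rs (M a) (x a)) := by
  have h1 := poly_int_sign hx
  have h2 : Pool.Agent.NPC.Poly (fun a => (x a).natAbs) := Pool.Agent.NPC.Poly.snd h1
  unfold rs
  exact Pool.Agent.NPC.Poly.ite (Pool.Agent.NPC.Poly.fst h1)
    (Pool.Agent.NPC.Poly.sub hM (Pool.Agent.NPC.Poly.mod h2 hM)) h2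

theorem poly_cm {D t : α → ℕ} {q : α → ℚ} (hD : Pool.Agent.NPC.Poly D)
    (ht : Pool.Agent.NPC.Poly t) (hq : Pool.Agent.NPC.Poly q) :
    Pool.Agent.NPC.Poly (fun a => cm (D a) (t a) (q a)) := by
  have hM : Pool.Agent.NPC.Poly (fun a => D a * t a + 1) :=
    Pool.Agent.NPC.Poly.succ (Pool.Agent.NPC.Poly.mul hD ht)
  unfold cm
  exact Pool.Agent.NPC.Poly.mod (Pool.Agent.NPC.Poly.mul (Pool.Agent.NPC.Poly.mul
    (poly_rs hM (ER.poly_ratNum hq)) (Pool.Agent.NPC.Poly.div hD (ER.poly_ratDen hq)))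
    (Pool.Agent.NPC.Poly.sub hM ht)) hM

theorem poly_stp {c : α → List ℕ} {M : α → ℕ} {v : α → List ℕ} (hc : Pool.Agent.NPC.Poly c)
    (hM : Pool.Agent.NPC.Poly M) (hv : Pool.Agent.NPC.Poly v) :
    Pool.Agent.NPC.Poly (fun a => stp (c a) (M a) (v a)) := by
  unfold stp
  refine Pool.Agent.NPC.Poly.cons (Pool.Agent.NPC.Poly.mod (Pool.Agent.NPC.Poly.sum ?_) hM) hv
  exact Pool.Agent.NPC.Poly.map (Pool.Agent.NPC.Poly.zip hc hv) (F := fun _ p => p.1 * p.2)
    (Pool.Agent.NPC.Poly.mul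
      (Pool.Agent.NPC.Poly.fst (Pool.Agent.NPC.Poly.snd Pool.Agent.NPC.Poly.id))
      (Pool.Agent.NPC.Poly.snd (Pool.Agent.NPC.Poly.snd Pool.Agent.NPC.Poly.id)))

set_option maxHeartbeats 400000 in
theorem poly_cmp {t : Rec → ℕ} (ht : Pool.Agent.NPC.Poly t) {q : Rec × (ℚ × ℚ) → ℚ}
    (hq : Pool.Agent.NPC.Poly q) :
    Pool.Agent.NPC.Poly (fun p : Rec × (ℚ × ℚ) => cm (dn p.1) (t p.1) (q p)) := by
  have hf : Pool.Agent.NPC.Poly (fun p : Rec × (ℚ × ℚ) => p.1) :=
    Pool.Agent.NPC.Poly.fst Pool.Agent.NPC.Poly.id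
  have h1 : Pool.Agent.NPC.Poly (fun p : Rec × (ℚ × ℚ) => dn p.1) :=
    Pool.Agent.NPC.Poly.comp (g := dn) poly_dn hf
  have h2 : Pool.Agent.NPC.Poly (fun p : Rec × (ℚ × ℚ) => t p.1) :=
    Pool.Agent.NPC.Poly.comp (g := t) ht hf
  exact poly_cm h1 h2 hq

set_option maxHeartbeats 400000 in
theorem poly_cs {t : Rec → ℕ} (ht : Pool.Agent.NPC.Poly t) :
    Pool.Agent.NPC.Poly (fun l : Rec => l.map fun p => cm (dn l) (t l) p.1) := by
  have hs : Pool.Agent.NPC.Poly (fun p : Rec × (ℚ × ℚ) => p.2) :=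
    Pool.Agent.NPC.Poly.snd Pool.Agent.NPC.Poly.id
  have h1 : Pool.Agent.NPC.Poly (fun p : Rec × (ℚ × ℚ) => cm (dn p.1) (t p.1) p.2.1) :=
    poly_cmp ht (Pool.Agent.NPC.Poly.fst hs)
  exact Pool.Agent.NPC.Poly.map (l := fun l : Rec => l) (F := fun l p => cm (dn l) (t l) p.1)
    Pool.Agent.NPC.Poly.id h1

set_option maxHeartbeats 400000 in
theorem poly_is {t : Rec → ℕ} (ht : Pool.Agent.NPC.Poly t) :
    Pool.Agent.NPC.Poly (fun l : Rec => (l.map fun p => cm (dn l) (t l) p.2).reverse) := by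
  have hs : Pool.Agent.NPC.Poly (fun p : Rec × (ℚ × ℚ) => p.2) :=
    Pool.Agent.NPC.Poly.snd Pool.Agent.NPC.Poly.id
  have h1 : Pool.Agent.NPC.Poly (fun p : Rec × (ℚ × ℚ) => cm (dn p.1) (t p.1) p.2.2) :=
    poly_cmp ht (Pool.Agent.NPC.Poly.snd hs)
  have h2 : Pool.Agent.NPC.Poly (fun l : Rec => l.map fun p => cm (dn l) (t l) p.2) :=
    Pool.Agent.NPC.Poly.map (l := fun l : Rec => l) (F := fun l p => cm (dn l) (t l) p.2)
      Pool.Agent.NPC.Poly.id h1
  exact Pool.Agent.NPC.Poly.reverse h2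

set_option maxHeartbeats 400000 in
theorem poly_sf {c : Rec → List ℕ} {M : Rec → ℕ} (hc : Pool.Agent.NPC.Poly c)
    (hM : Pool.Agent.NPC.Poly M) :
    Pool.Agent.NPC.Poly (fun p : Rec × List ℕ => stp (c p.1) (M p.1) p.2) :=
  poly_stp (hc.comp (Pool.Agent.NPC.Poly.fst Pool.Agent.NPC.Poly.id))
    (hM.comp (Pool.Agent.NPC.Poly.fst Pool.Agent.NPC.Poly.id))
    (Pool.Agent.NPC.Poly.snd Pool.Agent.NPC.Poly.id)

set_option maxHeartbeats 400000 in
theorem sz_run_le {t : Rec → ℕ} (r r2 : Polynomial ℕ) (l : Rec) (k : ℕ)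
    (hk : k ≤ r.eval (Pool.Agent.NPC.sz l))
    (h6 : Pool.Agent.NPC.sz (dn l * t l + 1) ≤ r2.eval (Pool.Agent.NPC.sz l)) :
    Pool.Agent.NPC.sz (run l (t l) k) ≤ ((Polynomial.X + r) * (Polynomial.C 4 * r2 +
      Polynomial.C 2) + Polynomial.C 1).eval (Pool.Agent.NPC.sz l) := by
  obtain ⟨g1, g2, -⟩ := inv_run l (t l) k
  have h1 := sz_le_length_mul (run l (t l) k) (4 * r2.eval (Pool.Agent.NPC.sz l) + 1) (by
    intro x hx
    have h2 := g2 x hx
    have h3 := sz_nat_le x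
    have h4 := Nat.size_le_size h2.le
    have h5 := size_le_sz (dn l * t l + 1)
    omega)
  refine h1.trans ?_
  simp only [Polynomial.eval_add, Polynomial.eval_mul, Polynomial.eval_C, Polynomial.eval_X]
  rw [g1]
  have h7 := length_lt_sz l
  have h10 : l.length + k ≤ Pool.Agent.NPC.sz l + r.eval (Pool.Agent.NPC.sz l) := by omega
  exact Nat.add_le_add_right (Nat.mul_le_mul_right (4 * r2.eval (Pool.Agent.NPC.sz l) + 2) h10) 1

set_option maxHeartbeats 400000 in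
theorem poly_iter {c : Rec → List ℕ} {M : Rec → ℕ} {s : Rec → List ℕ} {N : Rec → ℕ}
    (hc : Pool.Agent.NPC.Poly c) (hM : Pool.Agent.NPC.Poly M) (hs : Pool.Agent.NPC.Poly s)
    (hN : UPoly N) (q : Polynomial ℕ)
    (hq : ∀ l, ∀ k ≤ N l, Pool.Agent.NPC.sz ((stp (c l) (M l))^[k] (s l)) ≤
      q.eval (Pool.Agent.NPC.sz l)) :
    Pool.Agent.NPC.Poly (fun l : Rec => (stp (c l) (M l))^[N l] (s l)) := by
  refine (Pool.Agent.NPC.Poly.iterLen (l := fun l : Rec => List.replicate (N l) ())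
    (s := s) (F := fun l v => stp (c l) (M l) v) hN hs (poly_sf hc hM) q ?_).congr fun l => ?_
  · intro l k hk
    rw [List.length_replicate] at hk
    exact hq l k hk
  · rw [List.length_replicate]

set_option maxHeartbeats 400000 in
theorem poly_run {t N : Rec → ℕ} (ht : Pool.Agent.NPC.Poly t) (hN : UPoly N) :
    Pool.Agent.NPC.Poly (fun l : Rec => run l (t l) (N l)) := by
  have hM : Pool.Agent.NPC.Poly (fun l : Rec => dn l * t l + 1) :=
    Pool.Agent.NPC.Poly.succ (Pool.Agent.NPC.Poly.mul poly_dn ht)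
  obtain ⟨r, hr⟩ := hN.sz_le
  obtain ⟨r2, hr2⟩ := hM.sz_le
  have hc := poly_cs ht
  have hi := poly_is ht
  have hq : ∀ l : Rec, ∀ k ≤ N l, Pool.Agent.NPC.sz
      ((stp (l.map fun p => cm (dn l) (t l) p.1) (dn l * t l + 1))^[k]
        (l.map fun p => cm (dn l) (t l) p.2).reverse) ≤
      ((Polynomial.X + r) * (Polynomial.C 4 * r2 + Polynomial.C 2) + Polynomial.C 1).eval
        (Pool.Agent.NPC.sz l) := by
    intro l k hk
    have h8 := length_lt_sz (List.replicate (N l) ())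
    rw [List.length_replicate] at h8
    have h9 : Pool.Agent.NPC.sz (List.replicate (N l) ()) ≤ r.eval (Pool.Agent.NPC.sz l) := hr l
    exact sz_run_le r r2 l k (by omega) (hr2 l)
  have h := poly_iter hc hM hi hN _ hq
  exact h

end

/-- Zeros with polynomially bounded index are found in polynomial time. -/
theorem inPP_small (A : ℕ) : InPP (fun l : Rec =>
    ∃ n, n < l.length + (1 + Pool.Agent.H612.LR.sz l) ^ A ∧ seq l n = 0) := by
  have hN := upoly_Nb A
  have hP : UPoly (fun l : Rec => Pool.Agent.H612.LR.sz l *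
      (l.length + (1 + Pool.Agent.H612.LR.sz l) ^ A)) :=
    UPoly.mul (upoly_sz Pool.Agent.NPC.Poly.id) (UPoly.add (UPoly.length Pool.Agent.NPC.Poly.id) hN)
  refine inPP_of (d := fun l : Rec => decide (0 ∈ run l (2 ^ (Pool.Agent.H612.LR.sz l *
    (l.length + (1 + Pool.Agent.H612.LR.sz l) ^ A))) ((1 + Pool.Agent.H612.LR.sz l) ^ A))) ?_ ?_
  · exact Pool.Agent.NPC.Poly.decide_mem (Pool.Agent.NPC.Poly.const 0)
      (poly_run (poly_two_pow hP) hN)
  · intro l
    rw [decide_eq_true_iff, zero_mem_run l _ _ le_rfl]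

end Pool.Agent.Y556.SK
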