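import Mathlib
import Pool.Agent.Y215.SK.Grps
import Pool.Agent.Y215.SK.Defs

set_option autoImplicit false

/-!
# Vanishing sums of `n`-th powers of elements of a group of finite rank, with small coefficients
-/

namespace Pool.Agent.Y556.SK

open Finset Filter
open Pool.Agent.Helper259.AbsHt Pool.Agent.Y215.SK

/-- an ultrafilter chooses one of finitely many values -/
theorem exists_const {A : Type} [Finite A] (φ : ℕ → A) :
    ∃ a, ∀ᶠ t in (UU : Filter ℕ), φ t = a := by
  classical
  by_contra hcon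
  push Not at hcon
  have h2 : ∀ᶠ t in (UU : Filter ℕ), ∀ a, φ t ≠ a := by
    rw [Filter.eventually_all]
    exact hcon
  obtain ⟨t, ht⟩ := h2.exists
  exact ht (φ t) rfl

/-- the relation of two nonzero numbers whose quotient has height zero -/
def Rel (x y : Qbarˣ) : Prop := h1 ((x : Qbar) / (y : Qbar)) = 0

theorem rel_refl (x : Qbarˣ) : Rel x x := by
  unfold Rel
  rw [div_self x.ne_zero, h1_one]

theorem rel_symm {x y : Qbarˣ} (h : Rel x y) : Rel y x := by
  unfold Rel at h ⊢
  rw [← h1_inv, inv_div]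
  exact h

theorem rel_trans {x y z : Qbarˣ} (h : Rel x y) (h' : Rel y z) : Rel x z := by
  unfold Rel at h h' ⊢
  have e : (x : Qbar) / (z : Qbar) = ((x : Qbar) / (y : Qbar)) * ((y : Qbar) / (z : Qbar)) := by
    have := y.ne_zero
    field_simp
  apply le_antisymm _ (h1_nonneg _)
  rw [e]
  refine (h1_mul_le _ _).trans ?_
  rw [h, h', add_zero]

open Classical in
/-- **Class sums.** Vanishing sums of `n`-th powers with coefficients of small height. -/
theorem core (Γ : Subgroup Qbarˣ) (hΓ : Γ.FG) (r : ℕ) (η : ℝ) (hη : 0 < η) :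
    ∃ K : ℝ, 0 ≤ K ∧ ∀ (lam : Fin r → Qbarˣ) (c : Fin r → Qbar) (n : ℕ),
      (∀ i, lam i ∈ DivHull Γ) →
      (∀ i j, Rel (lam i) (lam j) ∨ η ≤ h1 ((lam i : Qbar) / (lam j : Qbar))) →
      ∑ i, c i * (lam i : Qbar) ^ n = 0 → K * (1 + ∑ i, h1 (c i)) < n →
      ∀ b : Fin r, ∑ i ∈ Finset.univ.filter (fun i => Rel (lam i) (lam b)),
        c i * (lam i : Qbar) ^ n = 0 := by
  by_contra hcon
  push Not at hcon
  have hcon2 : ∀ t : ℕ, ∃ (lam : Fin r → Qbarˣ) (c : Fin r → Qbar) (n : ℕ),
      (∀ i, lam i ∈ DivHull Γ) ∧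
      (∀ i j, Rel (lam i) (lam j) ∨ η ≤ h1 ((lam i : Qbar) / (lam j : Qbar))) ∧
      ∑ i, c i * (lam i : Qbar) ^ n = 0 ∧ (t + 1 : ℝ) * (1 + ∑ i, h1 (c i)) < n ∧
      ∃ b : Fin r, ∑ i ∈ Finset.univ.filter (fun i => Rel (lam i) (lam b)),
        c i * (lam i : Qbar) ^ n ≠ 0 := fun t => hcon (t + 1) (by positivity)
  choose lam c n hlam hgap hsum hn b hb using hcon2
  -- the scale
  set L : ℕ → ℝ := fun t => n t with hL
  have hc0 : ∀ t, 0 ≤ ∑ i, h1 (c t i) := fun t => Finset.sum_nonneg fun _ _ => h1_nonneg _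
  have hLt : ∀ t : ℕ, (t : ℝ) + 1 ≤ L t := by
    intro t
    have h2 := hn t
    have h3 := hc0 t
    have h4 : (t + 1 : ℝ) * 1 ≤ (t + 1 : ℝ) * (1 + ∑ i, h1 (c t i)) :=
      mul_le_mul_of_nonneg_left (by linarith) (by positivity)
    simp only [hL]
    linarith
  have hLtop : Tendsto L atTop atTop :=
    tendsto_atTop_mono (fun t => le_trans (by linarith) (hLt t)) tendsto_natCast_atTop_atTop
  have hL0 : ∀ t, 0 ≤ L t := fun t => le_trans (by positivity) (hLt t)
  -- the pattern
  obtain ⟨pat, hpat⟩ := exists_const (fun t => fun (p : Fin r × Fin r) =>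
    (decide (Rel (lam t p.1) (lam t p.2)) : Bool))
  obtain ⟨b0, hb0⟩ := exists_const b
  have hpat' : ∀ᶠ t in (UU : Filter ℕ), ∀ i j, (Rel (lam t i) (lam t j) ↔ pat (i, j) = true) := by
    filter_upwards [hpat] with t ht i j
    have := congrFun ht (i, j)
    simp only at this
    rw [← this, decide_eq_true_iff]
  have hequiv : Equivalence (fun i j : Fin r => pat (i, j) = true) := by
    obtain ⟨t, ht⟩ := hpat'.exists
    refine ⟨fun i => (ht i i).1 (rel_refl _), fun {i j} h => (ht j i).1 (rel_symm ((ht i j).2 h)),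
      fun {i j k} h h' => (ht i k).1 (rel_trans ((ht i j).2 h) ((ht j k).2 h'))⟩
  obtain ⟨f, hf1, hf2⟩ := exists_rep (fun i j : Fin r => pat (i, j) = true) hequiv
  -- the group
  obtain ⟨ρ, D, C0, hD⟩ := exists_grp Γ hΓ
  have hpow : ∀ t i, lam t i ^ n t ∈ DivHull Γ := by
    intro t i
    obtain ⟨m, hm0, hm⟩ := hlam t i
    refine ⟨m, hm0, ?_⟩
    rw [← pow_mul, mul_comm, pow_mul]
    exact Γ.pow_mem hm _
  choose s q hs0 hsh hus using fun (t : ℕ) (i : Fin r) => hD (lam t i ^ n t) (hpow t i)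
  have hsK : ∀ i, gm (fun t => s t i) ∈ KK L hLtop := fun i =>
    mem_KK_of_le _ C0 (Filter.Eventually.of_forall fun t => hsh t i)
  have hs0g : ∀ i, gm (fun t => s t i) ≠ 0 := fun i =>
    gm_ne_zero.2 (Filter.Eventually.of_forall fun t => hs0 t i)
  have hUg : ∀ i, gm (fun t => s t i) * yy D (fun t => q t i) =
      gm (fun t => ((lam t i : Qbar)) ^ n t) := by
    intro i
    unfold yy
    rw [gm_mul]
    congr 1
    funext t
    rw [← hus t i, Units.val_pow_eq_pow_val]
  have hcK : ∀ i, gm (fun t => c t i) ∈ KK L hLtop := by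
    intro i
    rw [mem_KK]
    intro ε hε
    filter_upwards [ev_of_atTop (Filter.eventually_ge_atTop ⌈1 / ε⌉₊)] with t ht
    have h3 : 1 / ε ≤ t := (Nat.le_ceil _).trans (by exact_mod_cast ht)
    rw [div_le_iff₀ hε] at h3
    have h4 := Finset.single_le_sum (f := fun i => h1 (c t i)) (fun _ _ => h1_nonneg _)
      (Finset.mem_univ i)
    have h5 := hn t
    have h6 := h1_nonneg (c t i)
    have h7 : (t + 1 : ℝ) * h1 (c t i) ≤ L t := by
      have : (t + 1 : ℝ) * h1 (c t i) ≤ (t + 1 : ℝ) * (1 + ∑ i, h1 (c t i)) :=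
        mul_le_mul_of_nonneg_left (by linarith) (by positivity)
      simp only [hL]
      linarith
    have h8 : 1 ≤ ε * (t + 1) := by nlinarith
    calc h1 (c t i) = 1 * h1 (c t i) := (one_mul _).symm
      _ ≤ ε * (t + 1) * h1 (c t i) := mul_le_mul_of_nonneg_right h8 h6
      _ = ε * ((t + 1) * h1 (c t i)) := by ring
      _ ≤ ε * L t := mul_le_mul_of_nonneg_left h7 hε.le
  -- the classes
  have hcls : ∀ i j, f i = f j ↔
      yy D (fun t => q t i) / yy D (fun t => q t j) ∈ KK L hLtop := by
    intro i j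
    have hr : yy D (fun t => q t i) / yy D (fun t => q t j) =
        gm (fun t => ((lam t i : Qbar) / (lam t j : Qbar)) ^ n t) *
          (gm (fun t => s t j) / gm (fun t => s t i)) := by
      have e1 := hUg i
      have e2 := hUg j
      have e3 : gm (fun t => ((lam t i : Qbar) / (lam t j : Qbar)) ^ n t) =
          gm (fun t => ((lam t i : Qbar)) ^ n t) / gm (fun t => ((lam t j : Qbar)) ^ n t) := by
        rw [gm_div]
        congr 1
        funext t
        rw [div_pow]
      rw [e3, ← e1, ← e2]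
      have f1 := hs0g i
      have f2 := hs0g j
      have f3 := yy_ne D (fun t => q t j)
      field_simp
    have hmem : gm (fun t => s t j) / gm (fun t => s t i) ∈ KK L hLtop :=
      div_mem (hsK j) (hsK i)
    have hmem' : gm (fun t => s t i) / gm (fun t => s t j) ∈ KK L hLtop :=
      div_mem (hsK i) (hsK j)
    rw [hf1]
    constructor
    · intro hp
      rw [hr]
      refine mul_mem ?_ hmem
      rw [mem_KK]
      intro ε hε
      filter_upwards [hpat'] with t ht
      have h2 : h1 ((lam t i : Qbar) / (lam t j : Qbar)) = 0 := (ht i j).2 hp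
      rw [h1_pow, h2, mul_zero]
      exact mul_nonneg hε.le (hL0 t)
    · intro hm
      have h2 : gm (fun t => ((lam t i : Qbar) / (lam t j : Qbar)) ^ n t) ∈ KK L hLtop := by
        have e1 : gm (fun t => ((lam t i : Qbar) / (lam t j : Qbar)) ^ n t) =
            (yy D (fun t => q t i) / yy D (fun t => q t j)) *
              (gm (fun t => s t i) / gm (fun t => s t j)) := by
          rw [hr]
          have f1 := hs0g i
          have f2 := hs0g j
          field_simp
        rw [e1]
        exact mul_mem hm hmem'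
      rw [mem_KK] at h2
      obtain ⟨t, ht1, ht2⟩ := ((h2 (η / 2) (by positivity)).and hpat').exists
      rw [h1_pow] at ht1
      have h3 : (0 : ℝ) < L t := lt_of_lt_of_le (by positivity) (hLt t)
      have h4 : h1 ((lam t i : Qbar) / (lam t j : Qbar)) ≤ η / 2 := by
        have h5 : L t * h1 ((lam t i : Qbar) / (lam t j : Qbar)) ≤ L t * (η / 2) := by
          have e : L t * (η / 2) = η / 2 * L t := mul_comm _ _
          rw [e]
          exact ht1
        exact le_of_mul_le_mul_left h5 h3
      rcases hgap t i j with h5 | h5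
      · exact (ht2 i j).1 h5
      · linarith
  have hsumg : ∑ i, (gm (fun t => c t i) * gm (fun t => s t i)) * yy D (fun t => q t i) = 0 := by
    have e1 : ∀ i, (gm (fun t => c t i) * gm (fun t => s t i)) * yy D (fun t => q t i) =
        gm (fun t => c t i * ((lam t i : Qbar)) ^ n t) := by
      intro i
      rw [mul_assoc, hUg, gm_mul]
    simp_rw [e1]
    rw [gm_sum, gm_eq_zero]
    exact Filter.Eventually.of_forall fun t => hsum t
  have key := class_sums D L hLtop (fun t i => q t i)
    (fun i => gm (fun t => c t i) * gm (fun t => s t i))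
    (fun i => mul_mem (hcK i) (hsK i)) hsumg f hcls hf2 (f b0)
  have e1 : ∀ i, (gm (fun t => c t i) * gm (fun t => s t i)) * yy D (fun t => q t i) =
      gm (fun t => c t i * ((lam t i : Qbar)) ^ n t) := by
    intro i
    rw [mul_assoc, hUg, gm_mul]
  simp only [e1] at key
  rw [gm_sum, gm_eq_zero] at key
  obtain ⟨t, ⟨ht1, ht2⟩, ht3⟩ := ((key.and hpat').and hb0).exists
  apply hb t
  rw [ht3, ← ht1]
  refine Finset.sum_congr ?_ fun _ _ => rfl
  ext i
  simp only [Finset.mem_filter, Finset.mem_univ, true_and]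
  rw [ht2 i b0, hf1]

end Pool.Agent.Y556.SK
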