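import Mathlib
import Pool.Agent.H58W.HtNorth
import Pool.Agent.Y215.SK.Ht1

set_option autoImplicit false

/-!
# Algebraic numbers of bounded degree and small height
-/

namespace Pool.Agent.Y556.SK

open Finset Module
open Pool.Agent.Helper259.AbsHt
open Pool.Agent.Y215.SK (h1 h1_nonneg h1_mul_le h1_pow h1_inv)

theorem h1_swap (x : Qbar) : absLogHeight ![1, x] = h1 x := by
  unfold h1
  apply le_antisymm
  · have h := absLogHeight_comp_le (![1, 0] : Fin 2 → Fin 2) (![x, 1] : Fin 2 → Qbar)
    have e : (![x, 1] : Fin 2 → Qbar) ∘ (![1, 0] : Fin 2 → Fin 2) = ![1, x] := by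
      funext i
      fin_cases i <;> rfl
    rwa [e] at h
  · have h := absLogHeight_comp_le (![1, 0] : Fin 2 → Fin 2) (![1, x] : Fin 2 → Qbar)
    have e : (![1, x] : Fin 2 → Qbar) ∘ (![1, 0] : Fin 2 → Fin 2) = ![x, 1] := by
      funext i
      fin_cases i <;> rfl
    rwa [e] at h

/-- the degree of an algebraic number -/
noncomputable abbrev dg (x : Qbar) : ℕ := (minpoly ℚ x).natDegree

theorem int_all (x : Qbar) : IsIntegral ℚ x :=
  ((AlgebraicClosure.isAlgebraic ℚ).isAlgebraic x).isIntegral

theorem dg_eq (x : Qbar) : dg x = finrank ℚ (IntermediateField.adjoin ℚ {x}) :=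
  (IntermediateField.adjoin.finrank (int_all x)).symm

theorem dg_le_of_mem (K : IntermediateField ℚ Qbar) [FiniteDimensional ℚ K] (x : Qbar)
    (hx : x ∈ K) : dg x ≤ finrank ℚ K := by
  rw [dg_eq]
  have hle : IntermediateField.adjoin ℚ {x} ≤ K := by
    rw [IntermediateField.adjoin_le_iff, Set.singleton_subset_iff]
    exact hx
  exact LinearMap.finrank_le_finrank_of_injective
    (f := (IntermediateField.inclusion hle).toLinearMap)
    (IntermediateField.inclusion_injective hle)

theorem dg_pow (x : Qbar) (n : ℕ) : dg (x ^ n) ≤ dg x := by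
  have : FiniteDimensional ℚ (IntermediateField.adjoin ℚ {x}) :=
    IntermediateField.adjoin.finiteDimensional (int_all x)
  have h := dg_le_of_mem (IntermediateField.adjoin ℚ {x}) (x ^ n)
    (pow_mem (IntermediateField.mem_adjoin_simple_self ℚ x) n)
  rwa [← dg_eq] at h

theorem dg_div (x y : Qbar) : dg (x / y) ≤ dg x * dg y := by
  have h1 : FiniteDimensional ℚ (IntermediateField.adjoin ℚ {x}) :=
    IntermediateField.adjoin.finiteDimensional (int_all x)
  have h2 : FiniteDimensional ℚ (IntermediateField.adjoin ℚ {y}) :=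
    IntermediateField.adjoin.finiteDimensional (int_all y)
  have h3 : FiniteDimensional ℚ
      (IntermediateField.adjoin ℚ {x} ⊔ IntermediateField.adjoin ℚ {y} :
        IntermediateField ℚ Qbar) := IntermediateField.finiteDimensional_sup _ _
  have h := dg_le_of_mem (IntermediateField.adjoin ℚ {x} ⊔ IntermediateField.adjoin ℚ {y}) (x / y)
    (div_mem ((le_sup_left : IntermediateField.adjoin ℚ {x} ≤ _)
      (IntermediateField.mem_adjoin_simple_self ℚ x))
      ((le_sup_right : IntermediateField.adjoin ℚ {y} ≤ _)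
      (IntermediateField.mem_adjoin_simple_self ℚ y)))
  refine h.trans ?_
  rw [dg_eq x, dg_eq y]
  exact IntermediateField.finrank_sup_le _ _

/-- the heights are zero or not too small -/
theorem gap (D : ℕ) : ∃ η : ℝ, 0 < η ∧ ∀ x : Qbar, dg x ≤ D → h1 x = 0 ∨ η ≤ h1 x := by
  classical
  have hfin := Pool.Agent.H58W.northcott D 1
  set S := hfin.toFinset with hS
  by_cases hne : (S.filter (fun x => h1 x ≠ 0)).Nonempty
  · obtain ⟨x0, hx0, hmin⟩ := Finset.exists_min_image _ (fun x => h1 x) hne
    have h0 : 0 < h1 x0 := lt_of_le_of_ne (h1_nonneg _) (Ne.symm (Finset.mem_filter.1 hx0).2)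
    refine ⟨min (h1 x0) 1, lt_min h0 one_pos, fun x hx => ?_⟩
    by_cases hz : h1 x = 0
    · exact Or.inl hz
    · right
      by_cases hx1 : h1 x ≤ 1
      · refine (min_le_left _ _).trans (hmin x ?_)
        rw [Finset.mem_filter]
        refine ⟨?_, hz⟩
        rw [hS, Set.Finite.mem_toFinset]
        exact ⟨hx, by rw [h1_swap]; exact hx1⟩
      · exact (min_le_right _ _).trans (not_le.1 hx1).le
  · refine ⟨1, one_pos, fun x hx => ?_⟩
    by_cases hz : h1 x = 0
    · exact Or.inl hz
    · right
      by_contra hx1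
      apply hne
      refine ⟨x, ?_⟩
      rw [Finset.mem_filter]
      refine ⟨?_, hz⟩
      rw [hS, Set.Finite.mem_toFinset]
      exact ⟨hx, by rw [h1_swap]; exact (not_le.1 hx1).le⟩

/-- the numbers of bounded degree and height zero are roots of unity of bounded order -/
theorem tors (D : ℕ) : ∃ L : ℕ, 1 ≤ L ∧ ∀ x : Qbar, x ≠ 0 → dg x ≤ D → h1 x = 0 → x ^ L = 1 := by
  classical
  have hfin := Pool.Agent.H58W.northcott D 1
  set S := hfin.toFinset with hS
  refine ⟨(S.card + 1).factorial, Nat.factorial_pos _, fun x hx0 hx hh => ?_⟩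
  have hmem : ∀ n : ℕ, x ^ n ∈ S := by
    intro n
    rw [hS, Set.Finite.mem_toFinset]
    refine ⟨(dg_pow x n).trans hx, ?_⟩
    rw [h1_swap, h1_pow, hh, mul_zero]
    exact zero_le_one
  obtain ⟨a, ha, b, hb, hab, he⟩ := Finset.exists_ne_map_eq_of_card_lt_of_maps_to
    (s := Finset.range (S.card + 1)) (t := S) (f := fun n => x ^ n)
    (by rw [Finset.card_range]; omega) (fun n _ => hmem n)
  rw [Finset.mem_range] at ha hb
  have key : ∀ a b : ℕ, a < b → b < S.card + 1 → x ^ a = x ^ b →
      x ^ (S.card + 1).factorial = 1 := by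
    intro a b hab hb he
    have h1 : x ^ (b - a) = 1 := by
      have h2 : x ^ a * x ^ (b - a) = x ^ a * 1 := by
        rw [← pow_add, Nat.add_sub_cancel' hab.le, ← he, mul_one]
      exact mul_left_cancel₀ (pow_ne_zero _ hx0) h2
    obtain ⟨e, he2⟩ : b - a ∣ (S.card + 1).factorial :=
      Nat.dvd_factorial (by omega) (by omega)
    rw [he2, pow_mul, h1, one_pow]
  rcases lt_or_gt_of_ne hab with h | h
  · exact key a b h hb he
  · exact key b a h ha he.symm

end Pool.Agent.Y556.SK
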