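import Mathlib
import Pool.Agent.H692R2.USS.Basic
import Pool.Agent.Y215.SK.Ht1

set_option autoImplicit false

/-!
# Recurrence sequences as exponential polynomials, with bounds for the heights of the coefficients
-/

namespace Pool.Agent.Y556.SK

open Polynomial Finset Pool.Agent.H692R2.USS Pool.Agent.Helper259.AbsHt
open Pool.Agent.Y215.SK (h1 h1_nonneg h1_mul_le h1_add_le h1_neg h1_sub_le h1_inv h1_div_le
  h1_pow h1_zero h1_one h1_prod_le h1_sum_le)

section field

variable {F : Type} [Field F]

/-- a polynomial in `n`, given by its coefficients in the binomial basis -/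
def bin (k : ℕ) (a : ℕ → F) (n : ℕ) : F := ∑ j ∈ range k, a j * (n.choose j : F)

theorem bin_succ_aux (a : ℕ → F) (n k : ℕ) :
    ∑ j ∈ range (k + 1), a j * ((n + 1).choose j : F) =
      ∑ j ∈ range k, (a j + a (j + 1)) * (n.choose j : F) + a k * (n.choose k : F) := by
  induction k with
  | zero => simp
  | succ k ih =>
    rw [Finset.sum_range_succ, ih, Finset.sum_range_succ (fun j => (a j + a (j + 1)) * _)]
    rw [Nat.choose_succ_succ]
    push_cast
    ring

theorem bin_succ (a : ℕ → F) (n k : ℕ) (h : a k = 0) :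
    bin k a (n + 1) = ∑ j ∈ range k, (a j + a (j + 1)) * (n.choose j : F) := by
  have h2 := bin_succ_aux a n k
  rw [Finset.sum_range_succ, h, zero_mul, zero_mul, add_zero, add_zero] at h2
  exact h2

theorem bin_zero (a : ℕ → F) (k : ℕ) : bin (k + 1) a 0 = a 0 := by
  unfold bin
  rw [Finset.sum_eq_single 0]
  · simp
  · intro j _ hj
    rw [Nat.choose_eq_zero_of_lt (Nat.pos_of_ne_zero hj)]
    simp
  · intro h
    exact absurd (Finset.mem_range.2 (Nat.succ_pos k)) h

/-- the solution of the difference equation, for two different bases -/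
noncomputable def sol (k : ℕ) (μ lam : F) (q : ℕ → F) (j : ℕ) : F :=
  ∑ s ∈ range k, if j ≤ s then q s * (-μ) ^ (s - j) * ((μ - lam) ^ (s - j + 1))⁻¹ else 0

theorem sol_eq (k : ℕ) (μ lam : F) (hne : μ - lam ≠ 0) (q : ℕ → F) (hq : ∀ j, k ≤ j → q j = 0)
    (j : ℕ) : (μ - lam) * sol k μ lam q j + μ * sol k μ lam q (j + 1) = q j := by
  unfold sol
  rw [Finset.mul_sum, Finset.mul_sum, ← Finset.sum_add_distrib]
  by_cases hj : j < k
  · rw [Finset.sum_eq_single j]
    · rw [if_pos le_rfl, if_neg (by omega), Nat.sub_self]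
      field_simp
      ring
    · intro s _ hs
      by_cases h : j ≤ s
      · have h2 : j + 1 ≤ s := by omega
        rw [if_pos h, if_pos h2]
        obtain ⟨e, rfl⟩ : ∃ e, s = j + 1 + e := ⟨s - (j + 1), by omega⟩
        have e1 : j + 1 + e - j = e + 1 := by omega
        have e2 : j + 1 + e - (j + 1) = e := by omega
        rw [e1, e2]
        field_simp
        ring
      · rw [if_neg h, if_neg (by omega)]
        ring
    · intro h
      exact absurd (Finset.mem_range.2 hj) h
  · rw [hq j (by omega)]
    refine Finset.sum_eq_zero fun s hs => ?_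
    rw [Finset.mem_range] at hs
    rw [if_neg (by omega), if_neg (by omega)]
    ring

theorem sol_zero (k : ℕ) (μ lam : F) (q : ℕ → F) (j : ℕ) (hj : k ≤ j) : sol k μ lam q j = 0 := by
  unfold sol
  refine Finset.sum_eq_zero fun s hs => ?_
  rw [Finset.mem_range] at hs
  rw [if_neg (by omega)]

/-- the difference equation, different bases -/
theorem diff_ne (k : ℕ) (μ lam : F) (hne : μ - lam ≠ 0) (q : ℕ → F) (hq : ∀ j, k ≤ j → q j = 0)
    (n : ℕ) : μ * bin (k + 1) (sol k μ lam q) (n + 1) - lam * bin (k + 1) (sol k μ lam q) n =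
      bin k q n := by
  rw [bin_succ _ _ _ (sol_zero k μ lam q _ (Nat.le_succ k))]
  unfold bin
  rw [Finset.mul_sum, Finset.mul_sum, ← Finset.sum_sub_distrib]
  have h1 : ∑ j ∈ range k, q j * (n.choose j : F) =
      ∑ j ∈ range (k + 1), q j * (n.choose j : F) := by
    rw [Finset.sum_range_succ, hq k le_rfl, zero_mul, add_zero]
  rw [h1]
  refine Finset.sum_congr rfl fun j _ => ?_
  have h2 := sol_eq k μ lam hne q hq j
  linear_combination (n.choose j : F) * h2

/-- the solution of the difference equation, equal bases -/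
def sol' (lam : F) (q : ℕ → F) (j : ℕ) : F := if j = 0 then 0 else lam⁻¹ * q (j - 1)

theorem diff_eq (k : ℕ) (lam : F) (hlam : lam ≠ 0) (q : ℕ → F) (hq : ∀ j, k ≤ j → q j = 0)
    (n : ℕ) : lam * bin (k + 1) (sol' lam q) (n + 1) - lam * bin (k + 1) (sol' lam q) n =
      bin k q n := by
  have h1 : ∑ j ∈ range k, q j * (n.choose j : F) =
      ∑ j ∈ range (k + 1), q j * (n.choose j : F) := by
    rw [Finset.sum_range_succ, hq k le_rfl, zero_mul, add_zero]
  have h0 := bin_succ_aux (sol' lam q) n (k + 1)
  have h3 : bin (k + 1) (sol' lam q) (n + 1) =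
      ∑ j ∈ range (k + 1), (sol' lam q j + sol' lam q (j + 1)) * (n.choose j : F) +
        sol' lam q (k + 1) * (n.choose (k + 1) : F) -
        sol' lam q (k + 1) * ((n + 1).choose (k + 1) : F) := by
    rw [← h0, Finset.sum_range_succ _ (k + 1)]
    unfold bin
    ring
  have h4 : sol' lam q (k + 1) = 0 := by
    unfold sol'
    rw [if_neg (Nat.succ_ne_zero k), Nat.add_sub_cancel, hq k le_rfl, mul_zero]
  rw [h3, h4]
  unfold bin
  rw [h1, zero_mul, zero_mul, add_zero, sub_zero, Finset.mul_sum, Finset.mul_sum,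
    ← Finset.sum_sub_distrib]
  refine Finset.sum_congr rfl fun j _ => ?_
  have h5 : sol' lam q (j + 1) = lam⁻¹ * q j := by
    unfold sol'
    rw [if_neg (Nat.succ_ne_zero j), Nat.add_sub_cancel]
  rw [h5]
  field_simp
  ring

/-- one root at a time -/
theorem rep_step (k : ℕ) (Λ : Fin (k + 1) → F) (hΛ : ∀ i, Λ i ≠ 0) (u : ℕ → F)
    (hu : Ann (∏ i, (X - C (Λ i))) u) :
    Ann (∏ i : Fin k, (X - C (Λ i.castSucc))) (fun n => u (n + 1) - Λ (Fin.last k) * u n) := by
  rw [Fin.prod_univ_castSucc] at hu
  unfold Ann at hu ⊢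
  rw [map_mul, Module.End.mul_apply] at hu
  have h1 : (aeval (E F) (X - C (Λ (Fin.last k)))) u =
      fun n => u (n + 1) - Λ (Fin.last k) * u n := by
    funext n
    rw [map_sub, aeval_X, aeval_C, LinearMap.sub_apply, Pi.sub_apply, E_apply]
    rfl
  rw [h1] at hu
  exact hu

end field

/-- the representation, with a bound for the heights of the coefficients -/
theorem rep (k : ℕ) : ∃ K : ℝ, 0 ≤ K ∧ ∀ (Λ : Fin k → Qbar), (∀ i, Λ i ≠ 0) → ∀ u : ℕ → Qbar,
    Ann (∏ i, (X - C (Λ i))) u → ∃ a : Fin k → ℕ → Qbar, (∀ i j, k ≤ j → a i j = 0) ∧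
      (∀ n, u n = ∑ i, bin k (a i) n * Λ i ^ n) ∧
      (∀ i j, h1 (a i j) ≤ K * (1 + ∑ i, h1 (Λ i) + ∑ m ∈ range k, h1 (u m))) ∧
      (Function.Injective Λ → ∀ i j, 1 ≤ j → a i j = 0) := by
  induction k with
  | zero =>
    refine ⟨0, le_rfl, fun Λ _ u hu => ⟨fun i => i.elim0, fun i => i.elim0, fun n => ?_,
      fun i => i.elim0, fun _ i => i.elim0⟩⟩
    unfold Ann at hu
    rw [Finset.univ_eq_empty, Finset.prod_empty, map_one] at hu
    have : u = 0 := hu
    rw [this]
    simp
  | succ k ih =>
    obtain ⟨K0, hK0, ih⟩ := ih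
    obtain ⟨K1, hK1⟩ : ∃ K1 : ℝ, K1 = K0 * (1 + 4 * k) := ⟨_, rfl⟩
    obtain ⟨K2, hK2⟩ : ∃ K2 : ℝ, K2 = k * (1 + (K1 + k + 3 * (k + 1))) + 1 + K1 := ⟨_, rfl⟩
    have hK10 : 0 ≤ K1 := by rw [hK1]; positivity
    have hK20 : 0 ≤ K2 := by rw [hK2]; positivity
    refine ⟨2 + (k + k * K2) + K2, by positivity, fun Λ hΛ u hu => ?_⟩
    set lam := Λ (Fin.last k) with hlam
    set v : ℕ → Qbar := fun n => u (n + 1) - lam * u n with hv
    obtain ⟨a', ha1, ha2, ha3, ha4⟩ := ih (fun i => Λ i.castSucc) (fun i => hΛ _) v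
      (rep_step k Λ hΛ u hu)
    obtain ⟨S, hS⟩ : ∃ S : ℝ, S = 1 + ∑ i, h1 (Λ i) + ∑ m ∈ range (k + 1), h1 (u m) := ⟨_, rfl⟩
    have hΛ0 : 0 ≤ ∑ i, h1 (Λ i) := Finset.sum_nonneg fun _ _ => h1_nonneg _
    have hu0 : 0 ≤ ∑ m ∈ range (k + 1), h1 (u m) := Finset.sum_nonneg fun _ _ => h1_nonneg _
    have hS1 : 1 ≤ S := by rw [hS]; linarith
    have hΛS : ∀ i, h1 (Λ i) ≤ S := by
      intro i
      have := Finset.single_le_sum (f := fun i => h1 (Λ i)) (fun _ _ => h1_nonneg _)
        (Finset.mem_univ i)
      rw [hS]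
      linarith
    have huS : ∀ m < k + 1, h1 (u m) ≤ S := by
      intro m hm
      have := Finset.single_le_sum (f := fun m => h1 (u m)) (fun _ _ => h1_nonneg _)
        (Finset.mem_range.2 hm)
      rw [hS]
      linarith
    have hlog : Real.log 2 ≤ S := by
      have := Real.log_two_lt_d9
      linarith
    have hvS : ∀ m < k, h1 (v m) ≤ 4 * S := by
      intro m hm
      have e1 := h1_sub_le (u (m + 1)) (lam * u m)
      have e2 := h1_mul_le lam (u m)
      have e3 := huS (m + 1) (by omega)
      have e4 := huS m (by omega)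
      have e5 := hΛS (Fin.last k)
      show h1 (u (m + 1) - lam * u m) ≤ 4 * S
      linarith
    have hvsum : ∑ m ∈ range k, h1 (v m) ≤ 4 * k * S := by
      calc ∑ m ∈ range k, h1 (v m) ≤ ∑ m ∈ range k, 4 * S :=
            Finset.sum_le_sum fun m hm => hvS m (Finset.mem_range.1 hm)
        _ = 4 * k * S := by
            rw [Finset.sum_const, Finset.card_range, nsmul_eq_mul]
            ring
    have hΛsum : ∑ i : Fin k, h1 (Λ i.castSucc) ≤ ∑ i, h1 (Λ i) := by
      rw [Fin.sum_univ_castSucc]
      linarith [h1_nonneg (Λ (Fin.last k))]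
    have ha'S : ∀ i j, h1 (a' i j) ≤ K1 * S := by
      intro i j
      refine (ha3 i j).trans ?_
      have e1 : 1 + ∑ i : Fin k, h1 (Λ i.castSucc) + ∑ m ∈ range k, h1 (v m) ≤
          (1 + 4 * k) * S := by
        have : 1 + ∑ i : Fin k, h1 (Λ i.castSucc) ≤ S := by rw [hS]; linarith
        linarith
      calc K0 * (1 + ∑ i : Fin k, h1 (Λ i.castSucc) + ∑ m ∈ range k, h1 (v m)) ≤
          K0 * ((1 + 4 * k) * S) := mul_le_mul_of_nonneg_left e1 hK0
        _ = K1 * S := by rw [hK1]; ring
    classical
    -- the new polynomials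
    set p : Fin k → ℕ → Qbar := fun i =>
      if Λ i.castSucc = lam then sol' lam (a' i) else sol k (Λ i.castSucc) lam (a' i) with hp
    have hp1 : ∀ i j, k + 1 ≤ j → p i j = 0 := by
      intro i j hj
      simp only [hp]
      split_ifs with h
      · unfold sol'
        rw [if_neg (by omega), ha1 i (j - 1) (by omega), mul_zero]
      · exact sol_zero _ _ _ _ _ (by omega)
    have hp2 : ∀ i n, Λ i.castSucc * bin (k + 1) (p i) (n + 1) - lam * bin (k + 1) (p i) n =
        bin k (a' i) n := by
      intro i n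
      simp only [hp]
      split_ifs with h
      · rw [h]
        exact diff_eq k lam (hΛ _) (a' i) (ha1 i) n
      · exact diff_ne k (Λ i.castSucc) lam (sub_ne_zero.2 h) (a' i) (ha1 i) n
    have hp3 : ∀ i j, h1 (p i j) ≤ K2 * S := by
      intro i j
      simp only [hp]
      have hk0 : (0 : ℝ) ≤ k := Nat.cast_nonneg k
      split_ifs with h
      · unfold sol'
        split_ifs with hj
        · rw [h1_zero]
          positivity
        · have e1 := h1_mul_le lam⁻¹ (a' i (j - 1))
          rw [h1_inv] at e1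
          have e2 := hΛS (Fin.last k)
          have e3 := ha'S i (j - 1)
          have e4 : (1 + K1) * S ≤ K2 * S := by
            apply mul_le_mul_of_nonneg_right _ (by linarith)
            rw [hK2]
            have : 0 ≤ (k : ℝ) * (1 + (K1 + k + 3 * (k + 1))) := by positivity
            linarith
          linarith
      · unfold sol
        refine (h1_sum_le _ _).trans ?_
        rw [Finset.card_range]
        have e1 : ∀ s ∈ range k, h1 (if j ≤ s then a' i s * (-Λ i.castSucc) ^ (s - j) *
            ((Λ i.castSucc - lam) ^ (s - j + 1))⁻¹ else 0) ≤ (K1 + k + 3 * (k + 1)) * S := by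
          intro s hs
          rw [Finset.mem_range] at hs
          split_ifs with hjs
          · have f1 := h1_mul_le (a' i s * (-Λ i.castSucc) ^ (s - j))
              ((Λ i.castSucc - lam) ^ (s - j + 1))⁻¹
            have f2 := h1_mul_le (a' i s) ((-Λ i.castSucc) ^ (s - j))
            rw [h1_inv, h1_pow] at f1
            rw [h1_pow, h1_neg] at f2
            have f3 := h1_sub_le (Λ i.castSucc) lam
            have f4 := hΛS i.castSucc
            have f5 := hΛS (Fin.last k)
            have f6 := ha'S i s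
            have f7 : ((s - j : ℕ) : ℝ) ≤ k := by exact_mod_cast (by omega : s - j ≤ k)
            have f8 : ((s - j + 1 : ℕ) : ℝ) ≤ k + 1 := by
              exact_mod_cast (by omega : s - j + 1 ≤ k + 1)
            have f9 : ((s - j : ℕ) : ℝ) * h1 (Λ i.castSucc) ≤ k * S :=
              mul_le_mul f7 f4 (h1_nonneg _) hk0
            have f10 : ((s - j + 1 : ℕ) : ℝ) * h1 (Λ i.castSucc - lam) ≤ (k + 1) * (3 * S) :=
              mul_le_mul f8 (by linarith) (h1_nonneg _) (by positivity)
            linarith
          · rw [h1_zero]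
            positivity
        refine (add_le_add (mul_le_mul_of_nonneg_left hlog hk0) (Finset.sum_le_sum e1)).trans ?_
        rw [Finset.sum_const, Finset.card_range, nsmul_eq_mul]
        have e2 : (0 : ℝ) ≤ (1 + K1) * S := by positivity
        have e3 : K2 * S = k * S + k * ((K1 + k + 3 * (k + 1)) * S) + (1 + K1) * S := by
          rw [hK2]
          ring
        linarith
    -- the remaining coefficient
    set w : ℕ → Qbar := fun n => u n - ∑ i : Fin k, bin (k + 1) (p i) n * Λ i.castSucc ^ n with hw
    have hw1 : ∀ n, w (n + 1) = lam * w n := by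
      intro n
      have e1 := ha2 n
      simp only [hv] at e1
      simp only [hw]
      have e2 : ∑ i : Fin k, bin (k + 1) (p i) (n + 1) * Λ i.castSucc ^ (n + 1) =
          ∑ i : Fin k, bin k (a' i) n * Λ i.castSucc ^ n +
            lam * ∑ i : Fin k, bin (k + 1) (p i) n * Λ i.castSucc ^ n := by
        rw [Finset.mul_sum, ← Finset.sum_add_distrib]
        refine Finset.sum_congr rfl fun i _ => ?_
        rw [← hp2 i n]
        ring
      rw [e2, ← e1]
      ring
    have hw2 : ∀ n, w n = w 0 * lam ^ n := by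
      intro n
      induction n with
      | zero => simp
      | succ n ihn =>
        rw [hw1, ihn]
        ring
    have hw0 : h1 (w 0) ≤ (2 + (k + k * K2)) * S := by
      simp only [hw]
      refine (h1_sub_le _ _).trans ?_
      have e1 := h1_sum_le Finset.univ (fun i : Fin k => bin (k + 1) (p i) 0 * Λ i.castSucc ^ 0)
      rw [Finset.card_univ, Fintype.card_fin] at e1
      have e2 : ∀ i ∈ (Finset.univ : Finset (Fin k)),
          h1 (bin (k + 1) (p i) 0 * Λ i.castSucc ^ 0) ≤ K2 * S := by
        intro i _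
        rw [pow_zero, mul_one, bin_zero]
        exact hp3 i 0
      have e3 := Finset.sum_le_sum e2
      rw [Finset.sum_const, Finset.card_univ, Fintype.card_fin, nsmul_eq_mul] at e3
      have e4 := huS 0 (Nat.succ_pos k)
      have e5 : (k : ℝ) * Real.log 2 ≤ k * S := mul_le_mul_of_nonneg_left hlog (Nat.cast_nonneg k)
      have e6 : (2 + (k + k * K2)) * S = S + S + k * S + k * (K2 * S) := by ring
      linarith
    refine ⟨Fin.snoc (α := fun _ => ℕ → Qbar) p (fun j => if j = 0 then w 0 else 0),
      ?_, ?_, ?_, ?_⟩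
    · intro i j hj
      refine Fin.lastCases ?_ (fun i => ?_) i
      · rw [Fin.snoc_last, if_neg (by omega)]
      · rw [Fin.snoc_castSucc]
        exact hp1 i j hj
    · intro n
      rw [Fin.sum_univ_castSucc]
      simp only [Fin.snoc_castSucc, Fin.snoc_last]
      have e1 : bin (k + 1) (fun j => if j = 0 then w 0 else 0) n = w 0 := by
        unfold bin
        rw [Finset.sum_eq_single 0]
        · simp
        · intro j _ hj
          simp [hj]
        · intro h
          exact absurd (Finset.mem_range.2 (Nat.succ_pos k)) h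
      rw [e1, ← hlam, ← hw2 n]
      simp only [hw]
      ring
    · intro i j
      rw [← hS]
      have hb : ∀ x : ℝ, x ≤ (2 + (k + k * K2)) * S ∨ x ≤ K2 * S →
          x ≤ (2 + (k + k * K2) + K2) * S := by
        intro x hx
        have e1 : 0 ≤ (2 + (k + k * K2)) * S := by positivity
        have e2 : 0 ≤ K2 * S := by positivity
        have e3 : (2 + (k + k * K2) + K2) * S = (2 + (k + k * K2)) * S + K2 * S := by ring
        rcases hx with hx | hx <;> linarith
      apply hb
      refine Fin.lastCases ?_ (fun i => ?_) i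
      · left
        rw [Fin.snoc_last]
        split_ifs
        · exact hw0
        · rw [h1_zero]
          positivity
      · right
        rw [Fin.snoc_castSucc]
        exact hp3 i j
    · intro hinj i j hj
      refine Fin.lastCases ?_ (fun i => ?_) i
      · rw [Fin.snoc_last, if_neg (by omega)]
      · rw [Fin.snoc_castSucc]
        have hne : Λ i.castSucc ≠ lam := by
          intro h
          have h2 := hinj h
          exact absurd h2 (Fin.castSucc_lt_last i).ne
        have hz := ha4 (fun x y hxy => Fin.castSucc_injective _ (hinj hxy)) i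
        simp only [hp]
        rw [if_neg hne]
        unfold sol
        refine Finset.sum_eq_zero fun s _ => ?_
        split_ifs with h
        · rw [hz s (by omega), zero_mul, zero_mul]
        · rfl

end Pool.Agent.Y556.SK
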