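import Mathlib
import Pool.Agent.Y556.SK.Rep
import Pool.Agent.Y556.SK.Core
import Pool.Agent.Y556.SK.Tors

set_option autoImplicit false

/-!
# The zeros of recurrence sequences with roots in a group of finite rank
-/

namespace Pool.Agent.Y556.SK

open Polynomial Finset Pool.Agent.H692R2.USS
open Pool.Agent.Helper259.AbsHt Pool.Agent.Y215.SK
open scoped Classical

theorem h1_rat (q : ℚ) : h1 ((q : ℚ) : Qbar) = Real.log ((max q.num.natAbs q.den : ℕ) : ℝ) := by
  have h := h1_eq ℚ (algebraMap ℚ Qbar) q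
  rw [Rat.logHeight₁_eq_log_max, Module.finrank_self, Nat.cast_one, div_one] at h
  rw [← h]
  congr 1

theorem h1_nat (m : ℕ) : h1 (m : Qbar) = Real.log m := by
  rcases Nat.eq_zero_or_pos m with rfl | hm
  · simp [h1_zero]
  · have h := h1_rat (m : ℚ)
    have e : ((m : ℚ) : Qbar) = (m : Qbar) := by push_cast; rfl
    rw [e] at h
    rw [h]
    congr 1
    have e2 : ((m : ℚ)).num.natAbs = m := by simp
    have e3 : ((m : ℚ)).den = 1 := by simp
    rw [e2, e3]
    exact_mod_cast max_eq_left hm

theorem h1_bin (k : ℕ) (a : ℕ → Qbar) (n : ℕ) (hn : 1 ≤ n) (A : ℝ) (ha : ∀ j, h1 (a j) ≤ A) :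
    h1 (bin k a n) ≤ k * (1 + A + k * Real.log n) := by
  unfold bin
  refine (h1_sum_le _ _).trans ?_
  rw [Finset.card_range]
  have hl : 0 ≤ Real.log n := Real.log_natCast_nonneg n
  have hlog2 : Real.log 2 ≤ 1 := by
    have := Real.log_two_lt_d9
    linarith
  have e1 : ∀ j ∈ range k, h1 (a j * (n.choose j : Qbar)) ≤ A + k * Real.log n := by
    intro j hj
    rw [Finset.mem_range] at hj
    refine (h1_mul_le _ _).trans ?_
    rw [h1_nat]
    have e2 : Real.log (n.choose j : ℕ) ≤ k * Real.log n := by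
      rcases Nat.eq_zero_or_pos (n.choose j) with h0 | h0
      · rw [h0]
        simp only [Nat.cast_zero, Real.log_zero]
        positivity
      · have e3 : ((n.choose j : ℕ) : ℝ) ≤ (n : ℝ) ^ j := by
          exact_mod_cast Nat.choose_le_pow n j
        have e4 := Real.log_le_log (by exact_mod_cast h0) e3
        rw [Real.log_pow] at e4
        refine e4.trans ?_
        apply mul_le_mul_of_nonneg_right _ hl
        exact_mod_cast hj.le
    linarith [ha j]
  have e2 := Finset.sum_le_sum e1
  rw [Finset.sum_const, Finset.card_range, nsmul_eq_mul] at e2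
  have e3 : (k : ℝ) * Real.log 2 ≤ k * 1 := mul_le_mul_of_nonneg_left hlog2 (Nat.cast_nonneg k)
  have e4 : (k : ℝ) * (1 + A + k * Real.log n) = k * 1 + k * (A + k * Real.log n) := by ring
  linarith

/-- the binomial polynomials -/
noncomputable def bp (j : ℕ) : Qbar[X] := C ((j.factorial : Qbar)⁻¹) * descPochhammer Qbar j

theorem bp_eval (j n : ℕ) : (bp j).eval (n : Qbar) = (n.choose j : Qbar) := by
  unfold bp
  rw [eval_mul, eval_C, descPochhammer_eval_eq_descFactorial, Nat.descFactorial_eq_factorial_mul_choose]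
  have : (j.factorial : Qbar) ≠ 0 := by exact_mod_cast j.factorial_ne_zero
  push_cast
  field_simp

theorem bp_deg (j : ℕ) : (bp j).natDegree = j := by
  unfold bp
  have : (j.factorial : Qbar)⁻¹ ≠ 0 := inv_ne_zero (by exact_mod_cast j.factorial_ne_zero)
  rw [natDegree_C_mul this, descPochhammer_natDegree]

theorem bp_lead (j : ℕ) : (bp j).coeff j ≠ 0 := by
  have h : (bp j).coeff j = (bp j).leadingCoeff := by
    rw [leadingCoeff, bp_deg]
  rw [h, leadingCoeff_ne_zero]
  intro h0
  have h1 := bp_eval j j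
  rw [h0] at h1
  simp at h1

/-- the natural zeros of polynomials -/
theorem root_bound (k : ℕ) : ∃ K : ℝ, 0 ≤ K ∧ ∀ (b : ℕ → Qbar) (n : ℕ) (A : ℝ),
    (∃ j < k, b j ≠ 0) → bin k b n = 0 → (∀ j, h1 (b j) ≤ A) → Real.log n ≤ K * (1 + A) := by
  obtain ⟨K0, hK0⟩ := absLogHeight_root k
  obtain ⟨G, hG⟩ : ∃ G : ℝ, G = ∑ i ∈ range (k + 1), ∑ j ∈ range k, h1 ((bp j).coeff i) := ⟨_, rfl⟩
  have hG0 : 0 ≤ G := by
    rw [hG]
    exact Finset.sum_nonneg fun _ _ => Finset.sum_nonneg fun _ _ => h1_nonneg _
  refine ⟨|K0| + (k + 1) * (k + k + G), by positivity, fun b n A hb hn hA => ?_⟩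
  have hA0 : 0 ≤ A := (h1_nonneg (b 0)).trans (hA 0)
  obtain ⟨P, hP⟩ : ∃ P : Qbar[X], P = ∑ j ∈ range k, C (b j) * bp j := ⟨_, rfl⟩
  have hcoef : ∀ i, P.coeff i = ∑ j ∈ range k, b j * (bp j).coeff i := by
    intro i
    rw [hP, finsetSum_coeff]
    exact Finset.sum_congr rfl fun j _ => coeff_C_mul _
  have hne : P ≠ 0 := by
    obtain ⟨j0, hj0, hbj0⟩ := hb
    have hfne : ((range k).filter (fun j => b j ≠ 0)).Nonempty :=
      ⟨j0, by rw [Finset.mem_filter, Finset.mem_range]; exact ⟨hj0, hbj0⟩⟩
    obtain ⟨J, hJ, hmax⟩ := Finset.exists_max_image _ (fun j : ℕ => j) hfne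
    rw [Finset.mem_filter, Finset.mem_range] at hJ
    intro h0
    have h1 := hcoef J
    rw [h0, coeff_zero, Finset.sum_eq_single J] at h1
    · exact (mul_ne_zero hJ.2 (bp_lead J)) h1.symm
    · intro j hj hjJ
      rcases lt_or_gt_of_ne hjJ with h | h
      · rw [coeff_eq_zero_of_natDegree_lt (by rw [bp_deg]; exact h), mul_zero]
      · have : b j = 0 := by
          by_contra hbj
          have := hmax j (by rw [Finset.mem_filter]; exact ⟨hj, hbj⟩)
          omega
        rw [this, zero_mul]
    · intro h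
      exact absurd (Finset.mem_range.2 hJ.1) h
  have hdeg : P.natDegree ≤ k := by
    rw [hP]
    refine natDegree_sum_le_of_forall_le _ _ fun j hj => ?_
    rw [Finset.mem_range] at hj
    refine (natDegree_C_mul_le _ _).trans ?_
    rw [bp_deg]
    exact hj.le
  have hev : P.eval (n : Qbar) = 0 := by
    rw [← hn, hP, eval_finset_sum]
    unfold bin
    refine Finset.sum_congr rfl fun j _ => ?_
    rw [eval_mul, eval_C, bp_eval]
  have h2 := hK0 P n hne hdeg hev
  rw [h1_swap, h1_nat] at h2
  have h3 := height_le_sum (Pool.Agent.Helper259.HtPoly.cv k P)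
  have hlog2 : Real.log 2 ≤ 1 := by
    have := Real.log_two_lt_d9
    linarith
  have h4 : ∀ i ∈ (Finset.univ : Finset (Fin (k + 1))),
      h1 (Pool.Agent.Helper259.HtPoly.cv k P i) ≤ k + k * A + G := by
    intro i _
    have e0 : Pool.Agent.Helper259.HtPoly.cv k P i = P.coeff i := rfl
    rw [e0, hcoef]
    refine (h1_sum_le _ _).trans ?_
    rw [Finset.card_range]
    have e1 : ∀ j ∈ range k, h1 (b j * (bp j).coeff i) ≤ A + h1 ((bp j).coeff i) := by
      intro j _
      exact (h1_mul_le _ _).trans (by linarith [hA j])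
    have e2 := Finset.sum_le_sum e1
    rw [Finset.sum_add_distrib, Finset.sum_const, Finset.card_range, nsmul_eq_mul] at e2
    have e3 : ∑ j ∈ range k, h1 ((bp j).coeff i) ≤ G := by
      rw [hG]
      exact Finset.single_le_sum (f := fun i => ∑ j ∈ range k, h1 ((bp j).coeff i))
        (fun _ _ => Finset.sum_nonneg fun _ _ => h1_nonneg _) (Finset.mem_range.2 i.2)
    have e4 : (k : ℝ) * Real.log 2 ≤ k := by
      have := mul_le_mul_of_nonneg_left hlog2 (Nat.cast_nonneg (α := ℝ) k)
      linarith
    linarith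
  have h5 := Finset.sum_le_sum h4
  rw [Finset.sum_const, Finset.card_univ, Fintype.card_fin, nsmul_eq_mul] at h5
  push_cast at h5
  have h6 : K0 ≤ |K0| := le_abs_self _
  have h7 : (|K0| + (k + 1) * (k + k + G)) * (1 + A) =
      |K0| + (k + 1) * (k + k * A + G) + (|K0| * A + (k + 1) * (k + (k + G) * A)) := by ring
  have h8 : 0 ≤ |K0| * A + ((k : ℝ) + 1) * (k + (k + G) * A) := by positivity
  linarith

/-- **The zeros.** -/
theorem zeros (Γ : Subgroup Qbarˣ) (hΓ : Γ.FG) (k D L : ℕ)
    (hL : ∀ x : Qbar, x ≠ 0 → dg x ≤ D → h1 x = 0 → x ^ L = 1) :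
    ∃ B : ℝ, 0 ≤ B ∧ ∀ Λ : Fin k → Qbarˣ, (∀ i, Λ i ∈ DivHull Γ) →
      (∀ i j, dg ((Λ i : Qbar) / (Λ j : Qbar)) ≤ D) → ∀ u : ℕ → Qbar,
      Ann (∏ i, (X - C (Λ i : Qbar))) u → ∀ n, u n = 0 →
        (∀ m, m ≡ n [MOD L] → u m = 0) ∨
          (Real.log n ≤ B * (1 + ∑ i, h1 (Λ i : Qbar) + ∑ m ∈ range k, h1 (u m)) ∧
            (Function.Injective Λ →
              (n : ℝ) ≤ B * (1 + ∑ i, h1 (Λ i : Qbar) + ∑ m ∈ range k, h1 (u m)))) := by
  obtain ⟨η, hη, hgap⟩ := gap D
  obtain ⟨K, hK0, hK⟩ := core Γ hΓ k η hη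
  obtain ⟨K', hK'0, hK'⟩ := rep k
  obtain ⟨R, hR0, hR⟩ := root_bound k
  obtain ⟨M, hM⟩ : ∃ M : ℝ, M = K * (1 + k * (k * (1 + K')) + k * (k * k)) := ⟨_, rfl⟩
  have hM0 : 0 ≤ M := by rw [hM]; positivity
  have hlM : 0 ≤ Real.log (2 * M + 2) := Real.log_nonneg (by linarith)
  obtain ⟨B1, hB1⟩ : ∃ B1 : ℝ, B1 = 2 * (M + M * Real.log (2 * M + 2)) := ⟨_, rfl⟩
  have hB10 : 0 ≤ B1 := by rw [hB1]; positivity
  obtain ⟨B2, hB2⟩ : ∃ B2 : ℝ, B2 = R * (1 + (k + k * K')) := ⟨_, rfl⟩
  have hB20 : 0 ≤ B2 := by rw [hB2]; positivity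
  refine ⟨B1 + B2, by linarith, fun Λ hΛ hdg u hu n hn => ?_⟩
  obtain ⟨S, hS⟩ : ∃ S : ℝ, S = 1 + ∑ i, h1 (Λ i : Qbar) + ∑ m ∈ range k, h1 (u m) := ⟨_, rfl⟩
  have hΛ0 : 0 ≤ ∑ i, h1 (Λ i : Qbar) := Finset.sum_nonneg fun _ _ => h1_nonneg _
  have hu0 : 0 ≤ ∑ m ∈ range k, h1 (u m) := Finset.sum_nonneg fun _ _ => h1_nonneg _
  have hS1 : 1 ≤ S := by rw [hS]; linarith
  rw [← hS]
  obtain ⟨a, ha1, ha2, ha3, ha4⟩ := hK' (fun i => (Λ i : Qbar)) (fun i => (Λ i).ne_zero) u hu
  rw [← hS] at ha3
  by_cases hsmall : (n : ℝ) ≤ B1 * S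
  · right
    have h1 : (n : ℝ) ≤ (B1 + B2) * S := by nlinarith
    refine ⟨?_, fun _ => h1⟩
    rcases Nat.eq_zero_or_pos n with rfl | hn0
    · simp only [Nat.cast_zero, Real.log_zero]
      positivity
    · have h2 := Real.log_le_sub_one_of_pos (show (0 : ℝ) < n by exact_mod_cast hn0)
      linarith
  · rw [not_le] at hsmall
    have hn1 : 1 ≤ n := by
      rcases Nat.eq_zero_or_pos n with rfl | hn0
      · simp only [Nat.cast_zero] at hsmall
        have : 0 ≤ B1 * S := by positivity
        linarith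
      · exact hn0
    have hnpos : (0 : ℝ) < n := by exact_mod_cast hn1
    have hlog : 0 ≤ Real.log n := Real.log_natCast_nonneg n
    -- the coefficients are small
    have hc : ∑ i, h1 (bin k (a i) n) ≤ k * (k * (1 + K' * S + k * Real.log n)) := by
      have e1 := Finset.sum_le_sum (s := Finset.univ) fun (i : Fin k) _ =>
        h1_bin k (a i) n hn1 (K' * S) (ha3 i)
      rwa [Finset.sum_const, Finset.card_univ, Fintype.card_fin, nsmul_eq_mul] at e1
    have hbig : K * (1 + ∑ i, h1 (bin k (a i) n)) < n := by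
      have e1 : K * (1 + ∑ i, h1 (bin k (a i) n)) ≤ M * S + M * Real.log n := by
        have e2 : K * (1 + ∑ i, h1 (bin k (a i) n)) ≤
            K * (1 + k * (k * (1 + K' * S + k * Real.log n))) :=
          mul_le_mul_of_nonneg_left (by linarith) hK0
        have e3 : 1 + (k : ℝ) * (k * (1 + K' * S + k * Real.log n)) ≤
            (1 + k * (k * (1 + K')) + k * (k * k)) * (S + Real.log n) := by
          have f1 : (0 : ℝ) ≤ k := Nat.cast_nonneg k
          have f2 : (1 + (k : ℝ) * (k * (1 + K')) + k * (k * k)) * (S + Real.log n) -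
              (1 + (k : ℝ) * (k * (1 + K' * S + k * Real.log n))) =
              (S - 1) * (1 + k * k) + Real.log n * (1 + k * (k * (1 + K'))) +
                k * (k * k) * S := by ring
          have f3 : 0 ≤ (S - 1) * (1 + (k : ℝ) * k) + Real.log n * (1 + k * (k * (1 + K'))) +
                k * (k * k) * S := by
            have g1 : 0 ≤ (S - 1) * (1 + (k : ℝ) * k) :=
              mul_nonneg (by linarith) (by positivity)
            have g2 : 0 ≤ Real.log n * (1 + (k : ℝ) * (k * (1 + K'))) := by positivity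
            have g3 : 0 ≤ (k : ℝ) * (k * k) * S := by positivity
            linarith
          linarith
        have e4 := mul_le_mul_of_nonneg_left e3 hK0
        have e5 : K * ((1 + k * (k * (1 + K')) + k * (k * k)) * (S + Real.log n)) =
            M * S + M * Real.log n := by
          rw [hM]
          ring
        linarith
      have e6 : Real.log n ≤ n / (2 * M + 2) + Real.log (2 * M + 2) := by
        have h2 : (0 : ℝ) < 2 * M + 2 := by linarith
        have h3 := Real.log_le_sub_one_of_pos (div_pos hnpos h2)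
        rw [Real.log_div hnpos.ne' h2.ne'] at h3
        linarith
      have e7 : M * Real.log n ≤ n / 2 + M * Real.log (2 * M + 2) := by
        have h2 := mul_le_mul_of_nonneg_left e6 hM0
        have h3 : M * (n / (2 * M + 2)) ≤ n / 2 := by
          rw [mul_div_assoc', div_le_div_iff₀ (by linarith) (by norm_num)]
          nlinarith
        linarith [mul_add M ((n : ℝ) / (2 * M + 2)) (Real.log (2 * M + 2))]
      have e8 : M * Real.log (2 * M + 2) ≤ M * Real.log (2 * M + 2) * S :=
        le_mul_of_one_le_right (by positivity) hS1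
      have e9 : B1 * S = 2 * (M * S) + 2 * (M * Real.log (2 * M + 2) * S) := by
        rw [hB1]
        ring
      linarith
    have hcls := hK Λ (fun i => bin k (a i) n) n hΛ (fun i j => hgap _ (hdg i j))
      (by rw [← ha2 n]; exact hn) hbig
    -- the class polynomials
    set b : Fin k → ℕ → Qbar := fun b0 j =>
      ∑ i ∈ Finset.univ.filter (fun i => Rel (Λ i) (Λ b0)),
        ((Λ i : Qbar) / (Λ b0 : Qbar)) ^ n * a i j with hb
    have hroot : ∀ i b0, Rel (Λ i) (Λ b0) → ((Λ i : Qbar) / (Λ b0 : Qbar)) ^ L = 1 :=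
      fun i b0 h => hL _ (div_ne_zero (Λ i).ne_zero (Λ b0).ne_zero) (hdg i b0) h
    have hexp : ∀ m b0, m ≡ n [MOD L] →
        ∑ i ∈ Finset.univ.filter (fun i => Rel (Λ i) (Λ b0)),
          bin k (a i) m * (Λ i : Qbar) ^ m = (Λ b0 : Qbar) ^ m * bin k (b b0) m := by
      intro m b0 hm
      have hpow : ∀ i, Rel (Λ i) (Λ b0) →
          ((Λ i : Qbar) / (Λ b0 : Qbar)) ^ m = ((Λ i : Qbar) / (Λ b0 : Qbar)) ^ n := by
        intro i hi
        have e := hroot i b0 hi
        rw [← Nat.mod_add_div m L, ← Nat.mod_add_div n L, pow_add, pow_add, pow_mul, pow_mul, e,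
          one_pow, one_pow, hm]
      unfold bin
      rw [Finset.mul_sum]
      have e1 : ∀ j, b b0 j = ∑ i ∈ Finset.univ.filter (fun i => Rel (Λ i) (Λ b0)),
          ((Λ i : Qbar) / (Λ b0 : Qbar)) ^ n * a i j := fun j => rfl
      simp_rw [e1, Finset.sum_mul, Finset.mul_sum]
      rw [Finset.sum_comm]
      refine Finset.sum_congr rfl fun j _ => Finset.sum_congr rfl fun i hi => ?_
      rw [Finset.mem_filter] at hi
      have e2 := hpow i hi.2
      rw [← e2, div_pow]
      have := pow_ne_zero m (Λ b0).ne_zero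
      field_simp
    have hbin : ∀ b0, bin k (b b0) n = 0 := by
      intro b0
      have e1 := hexp n b0 (Nat.ModEq.refl n)
      rw [hcls b0] at e1
      exact (mul_eq_zero.1 e1.symm).resolve_left (pow_ne_zero _ (Λ b0).ne_zero)
    -- if all class polynomials vanish then there is a progression of zeros
    have hAP : (∀ b0 : Fin k, ∀ j < k, b b0 j = 0) → ∀ m, m ≡ n [MOD L] → u m = 0 := by
      intro hz m hm
      rw [ha2 m]
      let St : Setoid (Fin k) := ⟨fun i j => Rel (Λ i) (Λ j), fun i => rel_refl _,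
        fun h => rel_symm h, fun h h' => rel_trans h h'⟩
      refine Finset.sum_cancels_of_partition_cancels St fun b0 _ => ?_
      have e1 := hexp m b0 hm
      have e2 : bin k (b b0) m = 0 := by
        unfold bin
        refine Finset.sum_eq_zero fun j hj => ?_
        rw [hz b0 j (Finset.mem_range.1 hj), zero_mul]
      rw [e2, mul_zero] at e1
      refine (Finset.sum_congr ?_ fun _ _ => rfl).trans e1
      ext i
      simp only [Finset.mem_filter, Finset.mem_univ, true_and]
      exact Iff.rfl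
    by_cases hz : ∀ b0 : Fin k, ∀ j < k, b b0 j = 0
    · exact Or.inl (hAP hz)
    · right
      push Not at hz
      obtain ⟨b0, hj⟩ := hz
      constructor
      · have hA : ∀ j, h1 (b b0 j) ≤ (k + k * K') * S := by
          intro j
          have e0 : b b0 j = ∑ i ∈ Finset.univ.filter (fun i => Rel (Λ i) (Λ b0)),
            ((Λ i : Qbar) / (Λ b0 : Qbar)) ^ n * a i j := rfl
          rw [e0]
          refine (h1_sum_le _ _).trans ?_
          have e1 : ∀ i ∈ Finset.univ.filter (fun i => Rel (Λ i) (Λ b0)),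
              h1 (((Λ i : Qbar) / (Λ b0 : Qbar)) ^ n * a i j) ≤ K' * S := by
            intro i hi
            rw [Finset.mem_filter] at hi
            refine (h1_mul_le _ _).trans ?_
            have e2 : h1 ((Λ i : Qbar) / (Λ b0 : Qbar)) = 0 := hi.2
            rw [h1_pow, e2, mul_zero, zero_add]
            exact ha3 i j
          have e2 := Finset.sum_le_sum e1
          rw [Finset.sum_const, nsmul_eq_mul] at e2
          have hcard : ((Finset.univ.filter (fun i => Rel (Λ i) (Λ b0))).card : ℝ) ≤ k := by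
            have := Finset.card_le_univ (Finset.univ.filter (fun i => Rel (Λ i) (Λ b0)))
            rw [Fintype.card_fin] at this
            exact_mod_cast this
          have hlog2 : Real.log 2 ≤ 1 := by
            have := Real.log_two_lt_d9
            linarith
          have hlog20 : 0 ≤ Real.log 2 := Real.log_nonneg (by norm_num)
          have e3 : ((Finset.univ.filter (fun i => Rel (Λ i) (Λ b0))).card : ℝ) * Real.log 2 ≤
              k * 1 := mul_le_mul hcard hlog2 hlog20 (Nat.cast_nonneg k)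
          have e4 : ((Finset.univ.filter (fun i => Rel (Λ i) (Λ b0))).card : ℝ) * (K' * S) ≤
              k * (K' * S) := mul_le_mul_of_nonneg_right hcard (by positivity)
          have e5 : (k : ℝ) * 1 ≤ k * S := mul_le_mul_of_nonneg_left hS1 (Nat.cast_nonneg k)
          have e6 : (k + k * K') * S = k * S + k * (K' * S) := by ring
          linarith
        have e1 := hR (b b0) n _ hj (hbin b0) hA
        have e2 : R * (1 + (k + k * K') * S) ≤ B2 * S := by
          rw [hB2]
          have : R * (1 + (k + k * K') * S) ≤ R * (S + (k + k * K') * S) :=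
            mul_le_mul_of_nonneg_left (by linarith) hR0
          calc R * (1 + (k + k * K') * S) ≤ R * (S + (k + k * K') * S) := this
            _ = _ := by ring
        have e3 : 0 ≤ B1 * S := by positivity
        have e4 : (B1 + B2) * S = B1 * S + B2 * S := by ring
        linarith
      · intro hinj
        exfalso
        have hinj' : Function.Injective (fun i => (Λ i : Qbar)) :=
          fun i j h => hinj (Units.ext h)
        have hz2 := ha4 hinj'
        have hb2 : ∀ j, 1 ≤ j → b b0 j = 0 := by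
          intro j hj1
          show ∑ i ∈ Finset.univ.filter (fun i => Rel (Λ i) (Λ b0)),
            ((Λ i : Qbar) / (Λ b0 : Qbar)) ^ n * a i j = 0
          refine Finset.sum_eq_zero fun i _ => ?_
          rw [hz2 i j hj1, mul_zero]
        have hk : 0 < k := by
          obtain ⟨j, hjk, -⟩ := hj
          omega
        have h0 : b b0 0 = 0 := by
          have e1 := hbin b0
          unfold bin at e1
          rw [Finset.sum_eq_single 0] at e1
          · simpa using e1
          · intro j _ hj0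
            rw [hb2 j (Nat.pos_of_ne_zero hj0), zero_mul]
          · intro h
            exact absurd (Finset.mem_range.2 hk) h
        obtain ⟨j, hjk, hjne⟩ := hj
        rcases Nat.eq_zero_or_pos j with rfl | hj1
        · exact hjne h0
        · exact hjne (hb2 j hj1)

end Pool.Agent.Y556.SK
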