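import Mathlib
import Pool.Agent.Y556.SK.Zer
import Pool.Agent.H612.LR.Defs

set_option autoImplicit false

/-!
# The zeros of rational recurrences with roots in a group of finite rank
-/

namespace Pool.Agent.Y556.SK

open Polynomial Finset Pool.Agent.H692R2.USS
open Pool.Agent.Helper259.AbsHt Pool.Agent.Y215.SK
open Pool.Agent.H612.LR (Rec coef ini seq chi sz szList)

/-- The order is at most `d`, and every nonzero characteristic root has a power in `Γ`. -/
def Cls (Γ : Subgroup Qbarˣ) (d : ℕ) (l : Rec) : Prop :=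
  l ≠ [] ∧ l.length ≤ d ∧ ∀ z : Qbar, aeval z (chi l) = 0 → z ≠ 0 →
    ∃ m : ℕ, 0 < m ∧ ∃ g ∈ Γ, z ^ m = (g : Qbar)

/-! ### sizes -/

theorem log_nat_le (m : ℕ) : Real.log m ≤ m.bits.length := by
  rcases Nat.eq_zero_or_pos m with rfl | hm
  · simp
  · rw [Nat.size_eq_bits_len]
    have h1 : (m : ℝ) ≤ 2 ^ m.size := by exact_mod_cast (Nat.lt_size_self m).le
    have h2 := Real.log_le_log (by exact_mod_cast hm) h1
    rw [Real.log_pow] at h2
    have h3 : Real.log 2 ≤ 1 := by
      have := Real.log_two_lt_d9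
      linarith
    have h4 := mul_le_mul_of_nonneg_left h3 (Nat.cast_nonneg (α := ℝ) m.size)
    linarith

theorem h1_rat_le (q : ℚ) :
    h1 ((q : ℚ) : Qbar) ≤ (q.num.natAbs.bits.length + q.den.bits.length : ℕ) := by
  rw [h1_rat]
  push_cast
  have e1 := log_nat_le q.num.natAbs
  have e2 := log_nat_le q.den
  have e3 : (0 : ℝ) ≤ q.num.natAbs.bits.length := Nat.cast_nonneg _
  have e4 : (0 : ℝ) ≤ q.den.bits.length := Nat.cast_nonneg _
  rcases le_total q.num.natAbs q.den with h | h
  · have : max (q.num.natAbs : ℝ) (q.den : ℝ) = q.den := max_eq_right (by exact_mod_cast h)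
    rw [this]
    linarith
  · have : max (q.num.natAbs : ℝ) (q.den : ℝ) = q.num.natAbs := max_eq_left (by exact_mod_cast h)
    rw [this]
    linarith

theorem sum_getD {α : Type} (f : α → ℝ) (d : α) (l : List α) :
    ∑ i ∈ range l.length, f (l.getD i d) = (l.map f).sum := by
  induction l with
  | nil => simp
  | cons a l ih =>
    rw [List.length_cons, Finset.sum_range_succ', List.map_cons, List.sum_cons, ← ih, add_comm]
    congr 1

theorem sz_ge (l : Rec) : (l.map (fun p => h1 ((p.1 : ℚ) : Qbar) + h1 ((p.2 : ℚ) : Qbar))).sum +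
    l.length ≤ sz l := by
  induction l with
  | nil => simp [sz, szList]
  | cons p l ih =>
    rw [List.map_cons, List.sum_cons, List.length_cons]
    have e1 : (sz (p :: l) : ℝ) = sz l + 1 + (p.1.num.natAbs.bits.length + p.1.den.bits.length : ℕ) +
        (p.2.num.natAbs.bits.length + p.2.den.bits.length : ℕ) := by
      have : sz (p :: l) = sz l + 1 + (p.1.num.natAbs.bits.length + p.1.den.bits.length) +
          (p.2.num.natAbs.bits.length + p.2.den.bits.length) := by
        unfold sz szList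
        rw [List.flatMap_cons, List.length_append]
        simp only [List.length_cons, List.length_append]
        omega
      rw [this]
      push_cast
      ring
    rw [e1]
    have e2 := h1_rat_le p.1
    have e3 := h1_rat_le p.2
    push_cast at e2 e3 ⊢
    linarith

theorem sum_ini (l : Rec) :
    ∑ i ∈ range l.length, h1 ((ini l i : ℚ) : Qbar) ≤ sz l := by
  have h := sz_ge l
  rw [← sum_getD (fun p : ℚ × ℚ => h1 ((p.1 : ℚ) : Qbar) + h1 ((p.2 : ℚ) : Qbar)) (0, 0) l,
    Finset.sum_add_distrib] at h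
  have h2 : 0 ≤ ∑ i ∈ range l.length, h1 (((l.getD i (0, 0)).1 : ℚ) : Qbar) :=
    Finset.sum_nonneg fun _ _ => h1_nonneg _
  have h3 : (0 : ℝ) ≤ l.length := Nat.cast_nonneg _
  unfold ini
  linarith

theorem sum_coef (l : Rec) :
    ∑ i ∈ range l.length, h1 ((coef l i : ℚ) : Qbar) ≤ sz l := by
  have h := sz_ge l
  rw [← sum_getD (fun p : ℚ × ℚ => h1 ((p.1 : ℚ) : Qbar) + h1 ((p.2 : ℚ) : Qbar)) (0, 0) l,
    Finset.sum_add_distrib] at h
  have h2 : 0 ≤ ∑ i ∈ range l.length, h1 (((l.getD i (0, 0)).2 : ℚ) : Qbar) :=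
    Finset.sum_nonneg fun _ _ => h1_nonneg _
  have h3 : (0 : ℝ) ≤ l.length := Nat.cast_nonneg _
  unfold coef
  linarith

theorem length_le_sz (l : Rec) : (l.length : ℝ) ≤ sz l := by
  have h := sz_ge l
  have h2 : 0 ≤ (l.map (fun p => h1 ((p.1 : ℚ) : Qbar) + h1 ((p.2 : ℚ) : Qbar))).sum :=
    List.sum_nonneg fun x hx => by
      obtain ⟨p, -, rfl⟩ := List.mem_map.1 hx
      exact add_nonneg (h1_nonneg _) (h1_nonneg _)
  linarith

/-! ### the characteristic polynomial -/

theorem chi_monic (l : Rec) (h : 1 ≤ l.length) : (chi l).Monic := by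
  unfold chi
  apply monic_X_pow_sub
  refine lt_of_le_of_lt (degree_sum_le _ _) ?_
  rw [Finset.sup_lt_iff (by exact WithBot.bot_lt_coe _)]
  intro i hi
  refine lt_of_le_of_lt (degree_C_mul_X_pow_le _ _) ?_
  rw [Nat.cast_lt]
  omega

theorem chi_natDegree (l : Rec) (h : 1 ≤ l.length) : (chi l).natDegree = l.length := by
  unfold chi
  rw [natDegree_sub_eq_left_of_natDegree_lt, natDegree_X_pow]
  rw [natDegree_X_pow]
  have : (∑ i ∈ Finset.range l.length,
      C (coef l i) * X ^ (l.length - 1 - i)).natDegree ≤ l.length - 1 := by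
    apply natDegree_sum_le_of_forall_le
    intro i hi
    refine le_trans (natDegree_C_mul_X_pow_le _ _) ?_
    omega
  omega

theorem seq_ini (l : Rec) (n : ℕ) (h : n < l.length) : seq l n = ini l n := by
  rw [seq]
  simp [h]

theorem seq_rec (l : Rec) (n : ℕ) (h : ¬ n < l.length) :
    seq l n = ∑ i ∈ Finset.range l.length, coef l i * seq l (n - 1 - i) := by
  rw [seq]
  rw [if_neg h]
  exact Fin.sum_univ_eq_sum_range (fun i => coef l i * seq l (n - 1 - i)) l.length

theorem ann_seq (l : Rec) : Ann (chi l) (seq l) := by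
  unfold Ann
  funext n
  unfold chi
  rw [map_sub, map_pow, aeval_X, map_sum, LinearMap.sub_apply, Pi.sub_apply, E_pow_apply,
    LinearMap.sum_apply, Finset.sum_apply]
  have e1 : ∀ i ∈ Finset.range l.length,
      ((aeval (E ℚ)) (C (coef l i) * X ^ (l.length - 1 - i))) (seq l) n =
        coef l i * seq l (n + l.length - 1 - i) := by
    intro i hi
    rw [Finset.mem_range] at hi
    rw [map_mul, aeval_C, map_pow, aeval_X, Module.End.mul_apply, Module.algebraMap_end_apply,
      Pi.smul_apply, E_pow_apply, smul_eq_mul]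
    congr 2
    omega
  rw [Finset.sum_congr rfl e1, seq_rec l (n + l.length) (by omega), sub_self]
  rfl

/-- the roots of a monic polynomial with multiplicities -/
theorem exists_roots (q : ℚ[X]) (hq : q.Monic) : ∃ Λ : Fin q.natDegree → Qbar,
    q.map (algebraMap ℚ Qbar) = ∏ i, (X - C (Λ i)) ∧
      (Squarefree q → Function.Injective Λ) := by
  set P := q.map (algebraMap ℚ Qbar) with hP
  have hmon : P.Monic := hq.map _
  have hdeg : P.natDegree = q.natDegree := by
    rw [hP, hq.natDegree_map]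
  have hsp : P.Splits := IsAlgClosed.splits P
  have hcard : P.roots.toList.length = q.natDegree := by
    rw [Multiset.length_toList, ← hsp.natDegree_eq_card_roots, hdeg]
  refine ⟨fun i => P.roots.toList.get (i.cast hcard.symm), ?_, fun hsq => ?_⟩
  · have h1 : P = (P.roots.toList.map (fun a => X - C a)).prod := by
      have h2 := hsp.eq_prod_roots
      rw [hmon.leadingCoeff, map_one, one_mul] at h2
      conv_lhs => rw [h2]
      conv_lhs => rw [← Multiset.coe_toList P.roots]
      rw [Multiset.map_coe, Multiset.prod_coe]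
    have h3 : ∏ i : Fin q.natDegree, (X - C (P.roots.toList.get (i.cast hcard.symm))) =
        ∏ i : Fin P.roots.toList.length, (X - C (P.roots.toList.get i)) :=
      Fintype.prod_equiv (finCongr hcard.symm) _ _ fun i => rfl
    rw [h3, ← List.prod_ofFn]
    conv_lhs => rw [h1]
    congr 1
    have h4 := List.ofFn_get P.roots.toList
    conv_lhs => rw [← h4]
    rw [List.map_ofFn]
    rfl
  · have hsep : q.Separable := PerfectField.separable_iff_squarefree.2 hsq
    have hnd : P.roots.Nodup := nodup_roots (hsep.map)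
    have hnd2 : P.roots.toList.Nodup := by
      rw [← Multiset.coe_nodup, Multiset.coe_toList]
      exact hnd
    have hinj := List.nodup_iff_injective_get.1 hnd2
    intro i j hij
    have := hinj hij
    exact Fin.cast_injective _ this

/-- splitting off the root zero -/
theorem split_zero (l : Rec) (hl : 1 ≤ l.length) : ∃ (m0 : ℕ) (q : ℚ[X]), q.Monic ∧
    chi l = X ^ m0 * q ∧ q.coeff 0 ≠ 0 ∧ m0 + q.natDegree = l.length ∧
    Ann q (fun n => seq l (n + m0)) := by
  obtain ⟨q, hq1, hq2⟩ := Polynomial.exists_eq_pow_rootMultiplicity_mul_and_not_dvd (chi l)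
    (chi_monic l hl).ne_zero 0
  rw [C_0, sub_zero] at hq1 hq2
  set m0 := rootMultiplicity 0 (chi l)
  have hmon : q.Monic := by
    have h1 := chi_monic l hl
    rw [hq1] at h1
    exact (monic_X_pow m0).of_mul_monic_left h1
  refine ⟨m0, q, hmon, hq1, ?_, ?_, ?_⟩
  · intro h0
    exact hq2 (X_dvd_iff.2 h0)
  · have h1 := chi_natDegree l hl
    rw [hq1, (monic_X_pow m0).natDegree_mul hmon, natDegree_X_pow] at h1
    exact h1
  · have h1 := ann_seq l
    unfold Ann at h1 ⊢
    rw [hq1, mul_comm, map_mul, Module.End.mul_apply] at h1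
    rw [← h1]
    congr 1
    funext n
    rw [map_pow, aeval_X, E_pow_apply]

/-- **The bound**, for one number of nonzero roots. -/
theorem bound_one (Γ : Subgroup Qbarˣ) (hΓ : Γ.FG) (d k L : ℕ)
    (hL : ∀ x : Qbar, x ≠ 0 → dg x ≤ d * d → h1 x = 0 → x ^ L = 1) :
    ∃ B : ℕ, ∀ l : Rec, Cls Γ d l → ∀ (m0 : ℕ) (q : ℚ[X]), q.Monic →
      chi l = X ^ m0 * q → q.coeff 0 ≠ 0 → m0 + q.natDegree = l.length →
      Ann q (fun n => seq l (n + m0)) → q.natDegree = k → ∀ n, seq l (n + m0) = 0 →
      (∀ m, m ≡ n [MOD L] → seq l (m + m0) = 0) ∨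
        (n ≤ 2 ^ (B * sz l) ∧ (Squarefree (chi l) → n ≤ B * sz l)) := by
  obtain ⟨B, hB0, hB⟩ := zeros Γ hΓ k (d * d) L hL
  obtain ⟨R, hR⟩ := absLogHeight_root k
  obtain ⟨M, hM⟩ : ∃ M : ℝ, M = 2 + k * (|R| + (k + 1) * (d + 3)) := ⟨_, rfl⟩
  have hM0 : 0 ≤ M := by rw [hM]; positivity
  refine ⟨⌈2 * (B * M)⌉₊, fun l hcl m0 q hq hchi hq0 hlen0 hann0 hk n hn => ?_⟩
  subst hk
  obtain ⟨hlne, hld, hroots⟩ := hcl
  have hl : 1 ≤ l.length := List.length_pos_iff.2 hlne
  obtain ⟨Λ, hΛ, hinj⟩ := exists_roots q hq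
  have hzq : ∀ i, aeval (Λ i) q = 0 := by
    intro i
    rw [← eval_map_algebraMap, hΛ, eval_prod]
    exact Finset.prod_eq_zero (Finset.mem_univ i) (by simp)
  have hz : ∀ i, aeval (Λ i) (chi l) = 0 := by
    intro i
    rw [hchi, map_mul, hzq, mul_zero]
  have hne : ∀ i, Λ i ≠ 0 := by
    intro i h0
    have h1 := hzq i
    rw [h0, aeval_def, eval₂_at_zero] at h1
    exact hq0 ((map_eq_zero _).1 h1)
  have hdeg : ∀ i, dg (Λ i) ≤ d := by
    intro i
    have h1 : minpoly ℚ (Λ i) ∣ chi l := minpoly.dvd ℚ _ (hz i)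
    have h2 := natDegree_le_of_dvd h1 (chi_monic l hl).ne_zero
    rw [chi_natDegree l hl] at h2
    exact h2.trans hld
  have hlen := length_le_sz l
  have hl1 : (1 : ℝ) ≤ l.length := by exact_mod_cast hl
  have hldR : (l.length : ℝ) ≤ d := by exact_mod_cast hld
  have hsz1 : (1 : ℝ) ≤ sz l := hl1.trans hlen
  -- heights of the roots
  have hcoef0 : ∀ j, h1 (((chi l).map (algebraMap ℚ Qbar)).coeff j) ≤ (l.length + 3) * sz l := by
    intro j
    have e1 : ((chi l).map (algebraMap ℚ Qbar)).coeff j =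
        (if j = l.length then (1 : Qbar) else 0) -
          ∑ i ∈ range l.length, (if j = l.length - 1 - i then ((coef l i : ℚ) : Qbar) else 0) := by
      unfold chi
      rw [coeff_map, coeff_sub, coeff_X_pow, finsetSum_coeff, map_sub, map_sum]
      congr 1
      · split_ifs <;> simp
      · refine Finset.sum_congr rfl fun i _ => ?_
        rw [coeff_C_mul, coeff_X_pow]
        split_ifs <;> simp
    rw [e1]
    refine (h1_sub_le _ _).trans ?_
    have e2 : h1 (if j = l.length then (1 : Qbar) else 0) = 0 := by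
      split_ifs
      · exact h1_one
      · exact h1_zero
    have e3 := h1_sum_le (range l.length)
      (fun i => (if j = l.length - 1 - i then ((coef l i : ℚ) : Qbar) else 0))
    rw [Finset.card_range] at e3
    have e4 : ∑ i ∈ range l.length,
        h1 (if j = l.length - 1 - i then ((coef l i : ℚ) : Qbar) else 0) ≤ sz l := by
      refine le_trans (Finset.sum_le_sum fun i _ => ?_) (sum_coef l)
      split_ifs
      · exact le_rfl
      · rw [h1_zero]
        exact h1_nonneg _
    have hlog2 : Real.log 2 ≤ 1 := by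
      have := Real.log_two_lt_d9
      linarith
    have e5 : (l.length : ℝ) * Real.log 2 ≤ l.length * 1 :=
      mul_le_mul_of_nonneg_left hlog2 (Nat.cast_nonneg _)
    have e6 : (l.length : ℝ) * 1 ≤ l.length * sz l :=
      mul_le_mul_of_nonneg_left hsz1 (Nat.cast_nonneg _)
    rw [e2]
    have e7 : ((l.length : ℝ) + 3) * sz l = l.length * sz l + 3 * sz l := by ring
    linarith
  have hcoef : ∀ j, h1 ((q.map (algebraMap ℚ Qbar)).coeff j) ≤ (d + 3) * sz l := by
    intro j
    have e1 : (q.map (algebraMap ℚ Qbar)).coeff j =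
        ((chi l).map (algebraMap ℚ Qbar)).coeff (j + m0) := by
      rw [coeff_map, coeff_map, hchi, mul_comm, coeff_mul_X_pow]
    rw [e1]
    exact (hcoef0 _).trans (mul_le_mul_of_nonneg_right (by linarith) (by linarith))
  have hh : ∀ i, h1 (Λ i) ≤ (|R| + (q.natDegree + 1) * (d + 3)) * sz l := by
    intro i
    have e1 := hR (q.map (algebraMap ℚ Qbar)) (Λ i) (hq.map _).ne_zero
      (by rw [hq.natDegree_map])
      (by rw [eval_map_algebraMap]; exact hzq i)
    rw [h1_swap] at e1
    have e2 := height_le_sum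
      (Pool.Agent.Helper259.HtPoly.cv q.natDegree (q.map (algebraMap ℚ Qbar)))
    have e3 := Finset.sum_le_sum (s := (Finset.univ : Finset (Fin (q.natDegree + 1))))
      fun j _ => hcoef j
    rw [Finset.sum_const, Finset.card_univ, Fintype.card_fin, nsmul_eq_mul] at e3
    push_cast at e3
    have e4 : ∑ j : Fin (q.natDegree + 1),
        h1 (Pool.Agent.Helper259.HtPoly.cv q.natDegree (q.map (algebraMap ℚ Qbar)) j) =
        ∑ j : Fin (q.natDegree + 1), h1 ((q.map (algebraMap ℚ Qbar)).coeff j) := rfl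
    rw [e4] at e2
    have e5 : R ≤ |R| * sz l := (le_abs_self R).trans (le_mul_of_one_le_right (abs_nonneg _) hsz1)
    have e6 : (|R| + ((q.natDegree : ℝ) + 1) * (d + 3)) * sz l =
        |R| * sz l + (q.natDegree + 1) * ((d + 3) * sz l) := by ring
    linarith
  -- the sum of the heights
  have hS : 1 + ∑ i, h1 (Λ i) + ∑ m ∈ range q.natDegree, h1 ((seq l (m + m0) : ℚ) : Qbar) ≤
      M * sz l := by
    have e1 := Finset.sum_le_sum (s := (Finset.univ : Finset (Fin q.natDegree))) fun i _ => hh i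
    rw [Finset.sum_const, Finset.card_univ, Fintype.card_fin, nsmul_eq_mul] at e1
    have e2 : ∑ m ∈ range q.natDegree, h1 ((seq l (m + m0) : ℚ) : Qbar) ≤ sz l := by
      refine le_trans ?_ (sum_ini l)
      have e4 : ∑ m ∈ range q.natDegree, h1 ((seq l (m + m0) : ℚ) : Qbar) =
          ∑ m ∈ range q.natDegree, h1 ((ini l (m0 + m) : ℚ) : Qbar) := by
        refine Finset.sum_congr rfl fun m hm => ?_
        rw [Finset.mem_range] at hm
        rw [seq_ini l (m + m0) (by omega), add_comm]
      rw [e4, ← hlen0, Finset.sum_range_add]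
      have e5 : 0 ≤ ∑ m ∈ range m0, h1 ((ini l m : ℚ) : Qbar) :=
        Finset.sum_nonneg fun _ _ => h1_nonneg _
      linarith
    have e3 : M * sz l = 2 * sz l +
        q.natDegree * ((|R| + (q.natDegree + 1) * (d + 3)) * sz l) := by
      rw [hM]
      ring
    linarith
  have hann : Ann (∏ i, (X - C (Λ i))) (fun n => ((seq l (n + m0) : ℚ) : Qbar)) := by
    have h := hann0.map (algebraMap ℚ Qbar)
    rw [hΛ] at h
    exact h
  set Λ' : Fin q.natDegree → Qbarˣ := fun i => Units.mk0 (Λ i) (hne i) with hΛ'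
  have hcoe : ∀ i, ((Λ' i : Qbarˣ) : Qbar) = Λ i := fun i => rfl
  have h := hB Λ' (fun i => by
      obtain ⟨m, hm, g, hg, hgm⟩ := hroots (Λ i) (hz i) (hne i)
      refine ⟨m, hm, ?_⟩
      have : Λ' i ^ m = g := by
        apply Units.ext
        rw [Units.val_pow_eq_pow_val, hcoe]
        exact hgm
      rw [this]
      exact hg)
    (fun i j => by
      rw [hcoe, hcoe]
      exact (dg_div _ _).trans (Nat.mul_le_mul (hdeg i) (hdeg j)))
    (fun n => ((seq l (n + m0) : ℚ) : Qbar)) hann n (by rw [hn]; exact Rat.cast_zero)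
  have hBS : B * (1 + ∑ i, h1 (Λ i) +
      ∑ m ∈ range q.natDegree, h1 ((seq l (m + m0) : ℚ) : Qbar)) ≤ B * M * sz l := by
    rw [mul_assoc]
    exact mul_le_mul_of_nonneg_left hS hB0
  rcases h with h | ⟨h1', h2'⟩
  · left
    intro m hm
    have := h m hm
    exact_mod_cast this
  · right
    have hceil : 2 * (B * M) ≤ (⌈2 * (B * M)⌉₊ : ℝ) := Nat.le_ceil _
    have hBM : 0 ≤ B * M := mul_nonneg hB0 hM0
    constructor
    · have h3 : Real.log n ≤ B * M * sz l := h1'.trans hBS
      rcases Nat.eq_zero_or_pos n with rfl | hn0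
      · exact Nat.zero_le _
      · have h4 : (0 : ℝ) < n := by exact_mod_cast hn0
        have h5 : Real.log n ≤ Real.log ((2 : ℝ) ^ (⌈2 * (B * M)⌉₊ * sz l)) := by
          rw [Real.log_pow]
          push_cast
          have h6 : (1 : ℝ) / 2 ≤ Real.log 2 := by
            have := Real.log_two_gt_d9
            linarith
          have h7 : 2 * (B * M) * sz l ≤ (⌈2 * (B * M)⌉₊ : ℝ) * sz l :=
            mul_le_mul_of_nonneg_right hceil (by linarith)
          have h8 : 2 * (B * M) * sz l * (1 / 2) ≤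
              (⌈2 * (B * M)⌉₊ : ℝ) * sz l * Real.log 2 :=
            mul_le_mul h7 h6 (by norm_num) (by positivity)
          have h9 : 2 * (B * M) * sz l * (1 / 2) = B * M * sz l := by ring
          linarith
        have h6 := (Real.log_le_log_iff h4 (by positivity)).1 h5
        exact_mod_cast h6
    · intro hsq
      have hsq' : Squarefree q := hsq.squarefree_of_dvd (hchi ▸ dvd_mul_left _ _)
      have h3 := h2' (fun i j hij => hinj hsq' (by
        have := congrArg (fun x : Qbarˣ => (x : Qbar)) hij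
        exact this))
      have h4 : (n : ℝ) ≤ (⌈2 * (B * M)⌉₊ : ℝ) * sz l := by
        refine (h3.trans hBS).trans ?_
        exact mul_le_mul_of_nonneg_right (by linarith) (by linarith)
      exact_mod_cast h4

theorem add_le_two_pow_mul (a b : ℕ) : 2 ^ a + b ≤ 2 ^ (a + b) := by
  have h1 : 1 ≤ 2 ^ a := Nat.one_le_two_pow
  have h2 : b + 1 ≤ 2 ^ b := Nat.lt_two_pow_self
  rw [pow_add]
  nlinarith

/-- **The bound.** -/
theorem bound (d : ℕ) : ∃ L : ℕ, 1 ≤ L ∧ ∀ Γ : Subgroup Qbarˣ, Γ.FG → ∃ B : ℕ,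
    ∀ l : Rec, Cls Γ d l → ∀ n, seq l n = 0 →
      (∀ m, l.length ≤ m → m ≡ n [MOD L] → seq l m = 0) ∨
        (n ≤ 2 ^ (B * sz l) ∧ (Squarefree (chi l) → n ≤ B * sz l)) := by
  obtain ⟨L, hL1, hL⟩ := tors (d * d)
  refine ⟨L, hL1, fun Γ hΓ => ?_⟩
  choose B hB using fun k => bound_one Γ hΓ d k L hL
  refine ⟨∑ k ∈ range (d + 1), B k + 1, fun l hcl n hn => ?_⟩
  have hl : 1 ≤ l.length := List.length_pos_iff.2 hcl.1
  have hlsz : l.length ≤ sz l := by exact_mod_cast length_le_sz l
  obtain ⟨m0, q, hq, hchi, hq0, hlen0, hann⟩ := split_zero l hl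
  have hqd : q.natDegree ≤ d := by
    have := hcl.2.1
    omega
  have hle : B q.natDegree ≤ ∑ k ∈ range (d + 1), B k :=
    Finset.single_le_sum (fun _ _ => Nat.zero_le _)
      (Finset.mem_range.2 (Nat.lt_succ_of_le hqd))
  have hm0 : m0 ≤ sz l := by omega
  by_cases hnm : n < m0
  · right
    have h1 : n ≤ (∑ k ∈ range (d + 1), B k + 1) * sz l := by
      have : sz l ≤ (∑ k ∈ range (d + 1), B k + 1) * sz l := Nat.le_mul_of_pos_left _ (by omega)
      omega
    exact ⟨h1.trans Nat.lt_two_pow_self.le, fun _ => h1⟩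
  · rw [not_lt] at hnm
    obtain ⟨n', rfl⟩ := Nat.exists_eq_add_of_le' hnm
    rcases hB _ l hcl m0 q hq hchi hq0 hlen0 hann rfl n' hn with h | ⟨h1, h2⟩
    · left
      intro m hm hmn
      obtain ⟨m', rfl⟩ := Nat.exists_eq_add_of_le' (show m0 ≤ m by omega)
      exact h m' (Nat.ModEq.add_right_cancel' m0 hmn)
    · right
      have e1 : B q.natDegree * sz l ≤ (∑ k ∈ range (d + 1), B k) * sz l :=
        Nat.mul_le_mul_right _ hle
      constructor
      · calc n' + m0 ≤ 2 ^ (B q.natDegree * sz l) + sz l := Nat.add_le_add h1 hm0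
          _ ≤ 2 ^ (B q.natDegree * sz l + sz l) := add_le_two_pow_mul _ _
          _ ≤ 2 ^ ((∑ k ∈ range (d + 1), B k + 1) * sz l) := by
              refine Nat.pow_le_pow_right (by norm_num) ?_
              rw [add_mul, one_mul]
              exact Nat.add_le_add_right e1 _
      · intro hsq
        have := h2 hsq
        rw [add_mul, one_mul]
        omega

end Pool.Agent.Y556.SK
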