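import Mathlib
import Pool.Agent.H612.LR.Defs

set_option autoImplicit false

/-!
# The terms of a rational recurrence modulo a large number coprime to the denominators
-/

namespace Pool.Agent.Y556.SK

open Finset
open Pool.Agent.H612.LR (Rec coef ini seq sz szList)

/-- the product of the denominators -/
def dn (l : Rec) : ℕ := l.foldr (fun p s => p.1.den * p.2.den * s) 1

theorem dn_cons (p : ℚ × ℚ) (l : Rec) : dn (p :: l) = p.1.den * p.2.den * dn l := rfl

theorem dn_pos (l : Rec) : 0 < dn l := by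
  induction l with
  | nil => exact Nat.one_pos
  | cons p l ih =>
    rw [dn_cons]
    exact Nat.mul_pos (Nat.mul_pos p.1.den_pos p.2.den_pos) ih

theorem den_dvd (l : Rec) (p : ℚ × ℚ) (hp : p ∈ l) : p.1.den ∣ dn l ∧ p.2.den ∣ dn l := by
  induction l with
  | nil => simp at hp
  | cons a l ih =>
    rw [dn_cons]
    rcases List.mem_cons.1 hp with rfl | h
    · exact ⟨(Dvd.intro _ rfl).trans (Dvd.intro _ rfl), (Dvd.intro_left _ rfl).trans
        (Dvd.intro _ rfl)⟩
    · exact ⟨(ih h).1.mul_left _, (ih h).2.mul_left _⟩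

theorem coef_den (l : Rec) (i : ℕ) : (coef l i).den ∣ dn l := by
  unfold coef
  by_cases h : i < l.length
  · rw [List.getD_eq_getElem _ _ h]
    exact (den_dvd l _ (List.getElem_mem h)).1
  · rw [List.getD_eq_default _ _ (not_lt.1 h)]
    simp

theorem ini_den (l : Rec) (i : ℕ) : (ini l i).den ∣ dn l := by
  unfold ini
  by_cases h : i < l.length
  · rw [List.getD_eq_getElem _ _ h]
    exact (den_dvd l _ (List.getElem_mem h)).2
  · rw [List.getD_eq_default _ _ (not_lt.1 h)]
    simp

/-- the integer `D q` -/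
theorem int_of_den (D : ℕ) (q : ℚ) (h : q.den ∣ D) :
    ((q.num * ((D / q.den : ℕ) : ℤ) : ℤ) : ℚ) = D * q := by
  obtain ⟨e, rfl⟩ := h
  rw [Nat.mul_div_cancel_left _ q.den_pos]
  have h1 : (q.den : ℚ) ≠ 0 := by exact_mod_cast q.den_ne_zero
  have h2 : q * q.den = q.num := Rat.mul_den_eq_num q
  push_cast
  linear_combination -(e : ℚ) * h2

theorem seq_eq (l : Rec) (n : ℕ) (h : ¬ n < l.length) :
    seq l n = ∑ i ∈ Finset.range l.length, coef l i * seq l (n - 1 - i) := by
  rw [seq]
  rw [if_neg h]
  exact Fin.sum_univ_eq_sum_range (fun i => coef l i * seq l (n - 1 - i)) l.length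

theorem seq_lt (l : Rec) (n : ℕ) (h : n < l.length) : seq l n = ini l n := by
  rw [seq]
  simp [h]

theorem w_int (l : Rec) (n : ℕ) : ∃ w : ℤ, (w : ℚ) = (dn l : ℚ) ^ (n + 1) * seq l n := by
  induction n using Nat.strong_induction_on with
  | _ n ih =>
    by_cases h : n < l.length
    · rw [seq_lt l n h]
      refine ⟨(dn l : ℤ) ^ n * ((ini l n).num * ((dn l / (ini l n).den : ℕ) : ℤ)), ?_⟩
      rw [Int.cast_mul, int_of_den _ _ (ini_den l n)]
      push_cast
      ring
    · have hcl : ∀ i ∈ range l.length,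
          (dn l : ℚ) ^ (n + 1) * (coef l i * seq l (n - 1 - i)) ∈ (Int.castRingHom ℚ).range := by
        intro i hi
        rw [Finset.mem_range] at hi
        obtain ⟨w, hw⟩ := ih (n - 1 - i) (by omega)
        refine ⟨((coef l i).num * ((dn l / (coef l i).den : ℕ) : ℤ)) * (dn l : ℤ) ^ i * w, ?_⟩
        simp only [eq_intCast]
        rw [Int.cast_mul, Int.cast_mul, int_of_den _ _ (coef_den l i), hw]
        push_cast
        have e1 : n - 1 - i + 1 = n - i := by omega
        have e2 : (dn l : ℚ) ^ (n + 1) = dn l * (dn l ^ i * dn l ^ (n - i)) := by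
          rw [← pow_add, ← pow_succ', show i + (n - i) = n by omega]
        rw [e1, e2]
        ring
      rw [seq_eq l n h, Finset.mul_sum]
      obtain ⟨w, hw⟩ := Subring.sum_mem _ hcl
      exact ⟨w, by simpa using hw⟩

/-- the integers `D ^ (n + 1) u_n` -/
noncomputable def wz (l : Rec) (n : ℕ) : ℤ := (w_int l n).choose

theorem wz_spec (l : Rec) (n : ℕ) : (wz l n : ℚ) = (dn l : ℚ) ^ (n + 1) * seq l n :=
  (w_int l n).choose_spec

theorem wz_eq_zero (l : Rec) (n : ℕ) : wz l n = 0 ↔ seq l n = 0 := by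
  have h := wz_spec l n
  have hD : (dn l : ℚ) ^ (n + 1) ≠ 0 := pow_ne_zero _ (by exact_mod_cast (dn_pos l).ne')
  constructor
  · intro h0
    rw [h0, Int.cast_zero] at h
    exact (mul_eq_zero.1 h.symm).resolve_left hD
  · intro h0
    rw [h0, mul_zero] at h
    exact_mod_cast h

theorem wz_lt (l : Rec) (n : ℕ) (h : n < l.length) :
    wz l n = (dn l : ℤ) ^ n * ((ini l n).num * ((dn l / (ini l n).den : ℕ) : ℤ)) := by
  have h1 : (wz l n : ℚ) =
      (((dn l : ℤ) ^ n * ((ini l n).num * ((dn l / (ini l n).den : ℕ) : ℤ)) : ℤ) : ℚ) := by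
    rw [wz_spec, seq_lt l n h, Int.cast_mul, int_of_den _ _ (ini_den l n)]
    push_cast
    ring
  exact_mod_cast h1

theorem wz_rec (l : Rec) (n : ℕ) (h : ¬ n < l.length) :
    wz l n = ∑ i ∈ range l.length, ((coef l i).num * ((dn l / (coef l i).den : ℕ) : ℤ)) *
      (dn l : ℤ) ^ i * wz l (n - 1 - i) := by
  have h1 : (wz l n : ℚ) = ((∑ i ∈ range l.length,
      ((coef l i).num * ((dn l / (coef l i).den : ℕ) : ℤ)) *
        (dn l : ℤ) ^ i * wz l (n - 1 - i) : ℤ) : ℚ) := by
    rw [wz_spec, seq_eq l n h, Finset.mul_sum, Int.cast_sum]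
    refine Finset.sum_congr rfl fun i hi => ?_
    rw [Finset.mem_range] at hi
    rw [Int.cast_mul, Int.cast_mul, int_of_den _ _ (coef_den l i), wz_spec]
    push_cast
    have e1 : n - 1 - i + 1 = n - i := by omega
    have e2 : (dn l : ℚ) ^ (n + 1) = dn l * (dn l ^ i * dn l ^ (n - i)) := by
      rw [← pow_add, ← pow_succ', show i + (n - i) = n by omega]
    rw [e1, e2]
    ring
  exact_mod_cast h1

/-! ### growth -/

theorem lt_two_pow_bits (m : ℕ) : m < 2 ^ m.bits.length := by
  rw [Nat.size_eq_bits_len]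
  exact Nat.lt_size_self m

/-- a bound for the absolute values -/
noncomputable def qn (l : Rec) : ℚ := l.foldr (fun p s => (1 + |p.1|) * (1 + |p.2|) * s) 1

theorem qn_cons (p : ℚ × ℚ) (l : Rec) : qn (p :: l) = (1 + |p.1|) * (1 + |p.2|) * qn l := rfl

theorem qn_ge (l : Rec) : 1 + ∑ i ∈ range l.length, |coef l i| ≤ qn l ∧
    ∀ i < l.length, |ini l i| ≤ qn l := by
  induction l with
  | nil => simp [qn]
  | cons p l ih =>
    rw [qn_cons, List.length_cons, Finset.sum_range_succ']
    have h1 : 0 ≤ ∑ i ∈ range l.length, |coef l i| := Finset.sum_nonneg fun _ _ => abs_nonneg _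
    have h2 : 1 ≤ qn l := by linarith [ih.1]
    have h3 := abs_nonneg p.1
    have h4 := abs_nonneg p.2
    have e1 : ∀ i, coef (p :: l) (i + 1) = coef l i := fun i => rfl
    have e2 : coef (p :: l) 0 = p.1 := rfl
    have h5 : 1 ≤ (1 + |p.1|) := by linarith
    have h6 : 1 ≤ (1 + |p.2|) := by linarith
    constructor
    · simp only [e1, e2]
      have h7 : 1 + |p.1| + ∑ i ∈ range l.length, |coef l i| ≤ (1 + |p.1|) * qn l := by
        have := ih.1
        nlinarith
      have h8 : (1 + |p.1|) * qn l ≤ (1 + |p.1|) * (1 + |p.2|) * qn l := by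
        have h9 : (1 + |p.1|) * qn l * 1 ≤ (1 + |p.1|) * qn l * (1 + |p.2|) :=
          mul_le_mul_of_nonneg_left h6 (by positivity)
        linarith
      linarith
    · intro i hi
      rcases i with _ | i
      · have e3 : ini (p :: l) 0 = p.2 := rfl
        rw [e3]
        have h7 : |p.2| ≤ (1 + |p.2|) * 1 := by linarith
        have h8 : (1 + |p.2|) * 1 ≤ (1 + |p.2|) * ((1 + |p.1|) * qn l) := by
          refine mul_le_mul_of_nonneg_left ?_ (by positivity)
          nlinarith
        linarith
      · have e3 : ini (p :: l) (i + 1) = ini l i := rfl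
        rw [e3]
        have h7 := ih.2 i (by simpa using hi)
        have h8 : 1 * qn l ≤ (1 + |p.1|) * (1 + |p.2|) * qn l := by
          refine mul_le_mul_of_nonneg_right ?_ (by linarith)
          nlinarith
        linarith

theorem qn_one_le (l : Rec) : 1 ≤ qn l := by
  have h := (qn_ge l).1
  have h1 : 0 ≤ ∑ i ∈ range l.length, |coef l i| := Finset.sum_nonneg fun _ _ => abs_nonneg _
  linarith

theorem seq_le (l : Rec) (n : ℕ) : |seq l n| ≤ qn l ^ (n + 1) := by
  induction n using Nat.strong_induction_on with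
  | _ n ih =>
    have h1 := qn_one_le l
    by_cases h : n < l.length
    · rw [seq_lt l n h]
      refine ((qn_ge l).2 n h).trans ?_
      exact le_self_pow₀ h1 (by omega)
    · rw [seq_eq l n h]
      refine (Finset.abs_sum_le_sum_abs _ _).trans ?_
      have h2 : ∀ i ∈ range l.length, |coef l i * seq l (n - 1 - i)| ≤ |coef l i| * qn l ^ n := by
        intro i hi
        rw [Finset.mem_range] at hi
        rw [abs_mul]
        refine mul_le_mul_of_nonneg_left ?_ (abs_nonneg _)
        refine (ih (n - 1 - i) (by omega)).trans ?_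
        exact pow_le_pow_right₀ h1 (by omega)
      refine (Finset.sum_le_sum h2).trans ?_
      rw [← Finset.sum_mul, pow_succ']
      refine mul_le_mul_of_nonneg_right ?_ (by positivity)
      linarith [(qn_ge l).1]

theorem den_mul_le (q : ℚ) : (q.den : ℚ) * (1 + |q|) ≤
    2 ^ (q.num.natAbs.bits.length + q.den.bits.length) := by
  have h1 : (q.den : ℚ) * (1 + |q|) = q.den + q.num.natAbs := by
    have h2 : (q.den : ℚ) * |q| = |q * q.den| := by
      rw [abs_mul, Nat.abs_cast, mul_comm]
    have h3 : |q * q.den| = (q.num.natAbs : ℚ) := by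
      rw [Rat.mul_den_eq_num, Nat.cast_natAbs, Int.cast_abs]
    rw [mul_add, mul_one, h2, h3]
  rw [h1]
  have h4 := lt_two_pow_bits q.num.natAbs
  have h5 := lt_two_pow_bits q.den
  have h7 : q.den + q.num.natAbs ≤ 2 ^ (q.num.natAbs.bits.length + q.den.bits.length) := by
    rw [pow_add]
    have h8 := Nat.mul_le_mul (Nat.succ_le_of_lt h4) (Nat.succ_le_of_lt h5)
    refine le_trans ?_ h8
    rw [Nat.succ_mul, Nat.mul_succ]
    omega
  exact_mod_cast h7

theorem dn_qn_le (l : Rec) : (dn l : ℚ) * qn l ≤ 2 ^ sz l := by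
  induction l with
  | nil => simp [dn, qn, sz, szList]
  | cons p l ih =>
    rw [dn_cons, qn_cons]
    have e1 : sz (p :: l) = 1 + (p.1.num.natAbs.bits.length + p.1.den.bits.length) +
        (p.2.num.natAbs.bits.length + p.2.den.bits.length) + sz l := by
      unfold sz szList
      rw [List.flatMap_cons, List.length_append]
      simp only [List.length_cons, List.length_append]
      omega
    rw [e1, pow_add, pow_add, pow_add, pow_one]
    have h1 := den_mul_le p.1
    have h2 := den_mul_le p.2
    have h3 : (0 : ℚ) ≤ p.1.den * (1 + |p.1|) := by positivity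
    have h4 : (0 : ℚ) ≤ p.2.den * (1 + |p.2|) := by positivity
    have h5 : (0 : ℚ) ≤ dn l * qn l := by
      have := qn_one_le l
      positivity
    have h6 := mul_le_mul (mul_le_mul h1 h2 h4 (by positivity)) ih h5 (by positivity)
    have h7 : ((p.1.den * p.2.den * dn l : ℕ) : ℚ) * ((1 + |p.1|) * (1 + |p.2|) * qn l) =
        p.1.den * (1 + |p.1|) * (p.2.den * (1 + |p.2|)) * (dn l * qn l) := by
      push_cast
      ring
    rw [h7]
    refine h6.trans ?_
    have h8 : (0 : ℚ) ≤ 2 ^ (p.1.num.natAbs.bits.length + p.1.den.bits.length) *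
      2 ^ (p.2.num.natAbs.bits.length + p.2.den.bits.length) * 2 ^ sz l := by positivity
    linarith

theorem wz_le (l : Rec) (n : ℕ) : (wz l n).natAbs ≤ 2 ^ (sz l * (n + 1)) := by
  have h1 : |(wz l n : ℚ)| ≤ (2 ^ sz l) ^ (n + 1) := by
    rw [wz_spec, abs_mul, abs_pow, Nat.abs_cast]
    have h2 := seq_le l n
    have h3 := dn_qn_le l
    calc (dn l : ℚ) ^ (n + 1) * |seq l n| ≤ (dn l : ℚ) ^ (n + 1) * qn l ^ (n + 1) :=
          mul_le_mul_of_nonneg_left h2 (by positivity)
      _ = (dn l * qn l) ^ (n + 1) := by rw [mul_pow]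
      _ ≤ (2 ^ sz l) ^ (n + 1) := by
          refine pow_le_pow_left₀ ?_ h3 _
          have := qn_one_le l
          positivity
  rw [← pow_mul] at h1
  have h4 : (((wz l n).natAbs : ℕ) : ℚ) ≤ ((2 ^ (sz l * (n + 1)) : ℕ) : ℚ) := by
    rw [Nat.cast_natAbs, Int.cast_abs]
    push_cast
    exact h1
  exact_mod_cast h4

/-! ### the computation -/

/-- the residue of an integer -/
def rs (M : ℕ) (x : ℤ) : ℕ := if x < 0 then M - x.natAbs % M else x.natAbs

/-- the residue of a rational number modulo `D t + 1` -/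
def cm (D t : ℕ) (q : ℚ) : ℕ :=
  rs (D * t + 1) q.num * (D / q.den) * (D * t + 1 - t) % (D * t + 1)

/-- one step -/
def stp (c : List ℕ) (M : ℕ) (v : List ℕ) : List ℕ :=
  (((c.zip v).map fun p => p.1 * p.2).sum % M) :: v

/-- `N` steps -/
def run (l : Rec) (t N : ℕ) : List ℕ :=
  (stp (l.map fun p => cm (dn l) t p.1) (dn l * t + 1))^[N]
    (l.map fun p => cm (dn l) t p.2).reverse

theorem cast_rs (M : ℕ) (hM : 0 < M) (x : ℤ) : ((rs M x : ℕ) : ZMod M) = (x : ZMod M) := by
  unfold rs
  split_ifs with h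
  · have h1 : x.natAbs % M ≤ M := (Nat.mod_lt _ hM).le
    rw [Nat.cast_sub h1, ZMod.natCast_self, zero_sub, ZMod.natCast_mod]
    have h2 : x = -((x.natAbs : ℕ) : ℤ) := by omega
    conv_rhs => rw [h2]
    push_cast
    simp
  · have h2 : x = ((x.natAbs : ℕ) : ℤ) := by omega
    conv_rhs => rw [h2]
    push_cast
    simp

theorem cm_lt (D t : ℕ) (q : ℚ) : cm D t q < D * t + 1 := Nat.mod_lt _ (Nat.succ_pos _)

theorem cast_cm (D t : ℕ) (hD : 0 < D) (q : ℚ) :
    (D : ZMod (D * t + 1)) * (cm D t q : ZMod (D * t + 1)) =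
      ((q.num * ((D / q.den : ℕ) : ℤ) : ℤ) : ZMod (D * t + 1)) := by
  have h0 : ((D * t + 1 : ℕ) : ZMod (D * t + 1)) = 0 := ZMod.natCast_self _
  have h1 : t ≤ D * t + 1 := (Nat.le_mul_of_pos_left t hD).trans (Nat.le_succ _)
  unfold cm
  rw [ZMod.natCast_mod, Nat.cast_mul, Nat.cast_mul, cast_rs _ (Nat.succ_pos _), Nat.cast_sub h1, h0,
    Int.cast_mul, Int.cast_natCast]
  have h2 : (D : ZMod (D * t + 1)) * (t : ZMod (D * t + 1)) + 1 = 0 := by
    have h3 := h0
    push_cast at h3
    exact h3
  linear_combination (-(q.num : ZMod (D * t + 1)) * ((D / q.den : ℕ) : ZMod (D * t + 1))) * h2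

theorem zip_sum (c v : List ℕ) : ((c.zip v).map fun p => p.1 * p.2).sum =
    ∑ i ∈ range c.length, c.getD i 0 * v.getD i 0 := by
  induction c generalizing v with
  | nil => simp
  | cons a c ih =>
    rw [List.length_cons, Finset.sum_range_succ']
    cases v with
    | nil => simp
    | cons b v =>
      rw [List.zip_cons_cons, List.map_cons, List.sum_cons, ih v]
      simp only [List.getD_cons_succ, List.getD_cons_zero]
      ring

/-- the invariant -/
def Inv (l : Rec) (t n : ℕ) (v : List ℕ) : Prop :=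
  v.length = n ∧ (∀ x ∈ v, x < dn l * t + 1) ∧
    ∀ j < n, (dn l : ZMod (dn l * t + 1)) ^ (n - j) * (v.getD j 0 : ZMod (dn l * t + 1)) =
      (wz l (n - 1 - j) : ZMod (dn l * t + 1))

theorem inv_init (l : Rec) (t : ℕ) :
    Inv l t l.length (l.map fun p => cm (dn l) t p.2).reverse := by
  refine ⟨by simp, fun x hx => ?_, fun j hj => ?_⟩
  · rw [List.mem_reverse, List.mem_map] at hx
    obtain ⟨p, -, rfl⟩ := hx
    exact cm_lt _ _ _
  · have h1 : (l.map fun p => cm (dn l) t p.2).reverse.getD j 0 =
        cm (dn l) t (ini l (l.length - 1 - j)) := by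
      rw [List.getD_eq_getElem _ _ (by simpa using hj), List.getElem_reverse, List.getElem_map]
      unfold ini
      rw [List.getD_eq_getElem _ _ (by omega)]
      simp
    rw [h1]
    have h2 : l.length - j = (l.length - 1 - j) + 1 := by omega
    rw [h2, pow_succ, mul_assoc, cast_cm _ _ (dn_pos l), wz_lt l _ (by omega)]
    push_cast
    ring

theorem inv_step (l : Rec) (t n : ℕ) (v : List ℕ) (hn : l.length ≤ n) (h : Inv l t n v) :
    Inv l t (n + 1) (stp (l.map fun p => cm (dn l) t p.1) (dn l * t + 1) v) := by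
  obtain ⟨h1, h2, h3⟩ := h
  refine ⟨by simp [stp, h1], fun x hx => ?_, fun j hj => ?_⟩
  · unfold stp at hx
    rcases List.mem_cons.1 hx with rfl | hx
    · exact Nat.mod_lt _ (Nat.succ_pos _)
    · exact h2 x hx
  · rcases j with _ | j
    · unfold stp
      rw [List.getD_cons_zero, ZMod.natCast_mod, zip_sum, List.length_map, Nat.cast_sum,
        Finset.mul_sum]
      rw [show n + 1 - 1 - 0 = n by omega, Nat.sub_zero, wz_rec l n (by omega), Int.cast_sum]
      refine Finset.sum_congr rfl fun i hi => ?_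
      rw [Finset.mem_range] at hi
      have e1 : (l.map fun p => cm (dn l) t p.1).getD i 0 = cm (dn l) t (coef l i) := by
        rw [List.getD_eq_getElem _ _ (by simpa using hi), List.getElem_map]
        unfold coef
        rw [List.getD_eq_getElem _ _ hi]
      rw [e1]
      have e2 := h3 i (by omega)
      have e3 := cast_cm (dn l) t (dn_pos l) (coef l i)
      have e4 : (dn l : ZMod (dn l * t + 1)) ^ (n + 1) = dn l * (dn l ^ i * dn l ^ (n - i)) := by
        rw [← pow_add, ← pow_succ', show i + (n - i) = n by omega]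
      rw [Int.cast_mul, Int.cast_mul, ← e2, ← e3, e4]
      push_cast
      ring
    · unfold stp
      rw [List.getD_cons_succ, show n + 1 - (j + 1) = n - j by omega,
        show n + 1 - 1 - (j + 1) = n - 1 - j by omega]
      exact h3 j (by omega)

theorem inv_run (l : Rec) (t N : ℕ) : Inv l t (l.length + N) (run l t N) := by
  unfold run
  induction N with
  | zero => exact inv_init l t
  | succ N ih =>
    rw [Function.iterate_succ_apply']
    exact inv_step l t (l.length + N) _ (Nat.le_add_right _ _) ih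

theorem zero_mem_run (l : Rec) (t N : ℕ) (ht : 2 ^ (sz l * (l.length + N)) ≤ t) :
    0 ∈ run l t N ↔ ∃ n, n < l.length + N ∧ seq l n = 0 := by
  obtain ⟨h1, h2, h3⟩ := inv_run l t N
  have hD : ((D : ℕ) → D = dn l → IsUnit ((D : ℕ) : ZMod (dn l * t + 1))) := by
    rintro D rfl
    rw [ZMod.isUnit_iff_coprime]
    have : Nat.Coprime (dn l) (dn l * t + 1) := by
      rw [Nat.coprime_mul_left_add_right]
      exact Nat.coprime_one_right _
    exact this
  have hu := hD (dn l) rfl
  have key : ∀ j < l.length + N, ((run l t N).getD j 0 = 0 ↔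
      seq l (l.length + N - 1 - j) = 0) := by
    intro j hj
    have hlt : (run l t N).getD j 0 < dn l * t + 1 := by
      rw [List.getD_eq_getElem _ _ (by omega)]
      exact h2 _ (List.getElem_mem _)
    rw [← wz_eq_zero]
    have e1 : ((run l t N).getD j 0 : ZMod (dn l * t + 1)) = 0 ↔ (run l t N).getD j 0 = 0 := by
      rw [ZMod.natCast_eq_zero_iff]
      refine ⟨fun h => Nat.eq_zero_of_dvd_of_lt h hlt, fun h => ?_⟩
      rw [h]
      exact dvd_zero _
    have e2 : ((wz l (l.length + N - 1 - j) : ℤ) : ZMod (dn l * t + 1)) = 0 ↔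
        wz l (l.length + N - 1 - j) = 0 := by
      rw [ZMod.intCast_zmod_eq_zero_iff_dvd]
      constructor
      · intro h
        have h4 := wz_le l (l.length + N - 1 - j)
        have h5 : 2 ^ (sz l * (l.length + N - 1 - j + 1)) ≤ t := by
          refine le_trans (Nat.pow_le_pow_right (by norm_num) ?_) ht
          exact Nat.mul_le_mul_left _ (by omega)
        have h6 : t ≤ dn l * t := Nat.le_mul_of_pos_left t (dn_pos l)
        refine Int.eq_zero_of_abs_lt_dvd h ?_
        have h7 : |wz l (l.length + N - 1 - j)| = ((wz l (l.length + N - 1 - j)).natAbs : ℤ) := by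
          rw [Int.natCast_natAbs]
        rw [h7]
        exact_mod_cast (by omega : (wz l (l.length + N - 1 - j)).natAbs < dn l * t + 1)
      · intro h
        rw [h]
        exact dvd_zero _
    rw [← e1, ← e2, ← h3 j hj]
    constructor
    · intro h
      rw [h, mul_zero]
    · intro h
      exact (hu.pow _).mul_right_eq_zero.1 h
  constructor
  · intro h
    obtain ⟨j, hj, hj0⟩ := List.getElem_of_mem h
    refine ⟨l.length + N - 1 - j, by omega, (key j (by omega)).1 ?_⟩
    rw [List.getD_eq_getElem _ _ hj]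
    exact hj0
  · rintro ⟨n, hn, hn0⟩
    have h4 := (key (l.length + N - 1 - n) (by omega)).2 (by
      rw [show l.length + N - 1 - (l.length + N - 1 - n) = n by omega]
      exact hn0)
    rw [List.getD_eq_getElem _ _ (by omega)] at h4
    rw [← h4]
    exact List.getElem_mem _

end Pool.Agent.Y556.SK
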